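import Mathlib

/-!
# Elimination in the systems of equations for the generating functions
-/

namespace Pool.Agent.SepClass

variable {R : Type*} [CommRing R] [IsDomain R]

theorem alg_key (x c β d l e s t g f : R) (I5 : β = x * c) (I6 : c = 1 + c * β)
    (I4 : d = (c - 1) * β) (L1 : l = 1 + x * l + e) (L2 : e = (l - 1) * (x + x * x))
    (L3 : s = 1 + x * s + e * s) (I1 : t = 1 + x * t + d * s) (I2 : g = x * t + d * (s - 1))
    (I7 : f = 1 + g * f) (hx : 1 - x ≠ 0) :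
    f * ((1 - 2 * x) * (1 - 2 * (x * c))) = 1 - 3 * x := by
  have I3 : (1 - 3 * x) * s = 1 - 2 * x - x * x := by
    linear_combination (1 - 2 * x - x * x) * L3 + s * ((x + x * x) * (L1 + L2)
      + (1 - 2 * x - x * x) * L2)
  refine mul_left_cancel₀ hx ?_
  linear_combination f * ((1 - 2 * x) * (2 * x)) * (I4 + (c - 1) * I5 - I6 - c * I5)
    + f * (1 - x) * (1 - 3 * x) * I2 + f * x * (1 - 3 * x) * I1 + f * d * I3
    + (1 - x) * (1 - 3 * x) * I7

/-- uniqueness of the solution of `c = 1 + x c^2` -/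
theorem alg_catalan (x c c' : R) (h : c = 1 + c * (x * c)) (h' : c' = 1 + c' * (x * c'))
    (hne : 1 - x * (c + c') ≠ 0) : c = c' := by
  have : (c - c') * (1 - x * (c + c')) = 0 := by linear_combination h - h'
  rcases mul_eq_zero.1 this with h1 | h1
  · exact sub_eq_zero.1 h1
  · exact absurd h1 hne

theorem alg_inter (x z a d l e s t g : R) (Z : z = x * (1 + z)) (A1 : a = 1 + a * z)
    (D1 : d = (a - 1) * z) (L1 : l = 1 + z + e) (E1 : e = (l - 1) * (x + x * x))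
    (S1 : s = 1 + x * s + e * s) (T1 : t = 1 + x * t + d * s) (G1 : g = x * t + d * (s - 1))
    (hx : 1 - x ≠ 0) :
    (1 - x) * (1 - 2 * x) * (1 - 3 * x + x ^ 2 - x ^ 4) * (1 - g) =
      (1 - 2 * x) ^ 2 * (1 - 3 * x + x ^ 2 - x ^ 4) - x ^ 3 * (2 - 2 * x + x ^ 3) := by
  have hz : (1 - x) * z = x := by linear_combination Z
  have ha : (1 - 2 * x) * a = 1 - x := by
    linear_combination (1 - x) * A1 + a * hz
  have hd : (1 - x) * (1 - 2 * x) * d = x ^ 2 := by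
    linear_combination (1 - x) * (1 - 2 * x) * D1 + (1 - x) * z * ha + x * hz
  have hl : (1 - x - x ^ 2) * (l - 1) = z := by
    linear_combination L1 + E1
  have he : (1 - x) * (1 - x - x ^ 2) * e = (x + x ^ 2) * x := by
    linear_combination (1 - x) * (1 - x - x ^ 2) * E1 + (1 - x) * (x + x ^ 2) * hl
      + (x + x ^ 2) * hz
  have hs : (1 - 3 * x + x ^ 2 - x ^ 4) * s = (1 - x) * (1 - x - x ^ 2) := by
    linear_combination (1 - x) * (1 - x - x ^ 2) * S1 + s * he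
  have hg : (1 - x) * (1 - g) = (1 - 2 * x) - d * (s - (1 - x)) := by
    linear_combination -(1 - x) * G1 - x * T1
  refine mul_left_cancel₀ hx ?_
  linear_combination (1 - x) * (1 - 2 * x) * (1 - 3 * x + x ^ 2 - x ^ 4) * hg
    - (1 - 3 * x + x ^ 2 - x ^ 4) * (s - (1 - x)) * hd - x ^ 2 * hs

theorem alg_final (x c c' f1 f2 g2 g v F : R) (hc : c = 1 + c * (x * c)) (hcc : c = c')
    (K1 : f1 * ((1 - 2 * x) * (1 - 2 * (x * c))) = 1 - 3 * x)
    (K2 : f2 * ((1 - 2 * x) * (1 - 2 * (x * c'))) = 1 - 3 * x)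
    (F2 : f2 = 1 + g2 * f2) (V : v = 1 + (g2 - g) * f2) (hF : F = f1 * v)
    (hg : (1 - x) * (1 - 2 * x) * (1 - 3 * x + x ^ 2 - x ^ 4) * (1 - g) =
      (1 - 2 * x) ^ 2 * (1 - 3 * x + x ^ 2 - x ^ 4) - x ^ 3 * (2 - 2 * x + x ^ 3)) :
    ((1 - x) * (1 - 2 * x) ^ 3 * (1 - 4 * x) * (1 - 3 * x + x ^ 2 - x ^ 4)) * F =
      (1 - 3 * x) ^ 2 *
        ((1 - 2 * x) ^ 2 * (1 - 3 * x + x ^ 2 - x ^ 4) - x ^ 3 * (2 - 2 * x + x ^ 3)) := by
  subst hcc
  have h4 : (1 - 2 * (x * c)) ^ 2 = 1 - 4 * x := by linear_combination -4 * x * hc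
  have hv : v = f2 * (1 - g) := by linear_combination V - F2
  have hFF : F * ((1 - 2 * x) ^ 2 * (1 - 4 * x)) = (1 - 3 * x) ^ 2 * (1 - g) := by
    rw [hF, hv, ← h4]
    linear_combination (1 - g) * (f2 * ((1 - 2 * x) * (1 - 2 * (x * c)))) * K1
      + (1 - g) * (1 - 3 * x) * K2
  linear_combination (1 - x) * (1 - 2 * x) * (1 - 3 * x + x ^ 2 - x ^ 4) * hFF
    + (1 - 3 * x) ^ 2 * hg

end Pool.Agent.SepClass
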