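import Mathlib

/-!
# Words with sum and skew decompositions

We work with permutations in one-line form, as lists of natural numbers.  `Lt u v` says that every
letter of `u` is smaller than every letter of `v`.
-/

namespace Pool.Agent.SepClass

/-- every letter of `u` is smaller than every letter of `v` -/
def Lt (u v : List ℕ) : Prop := ∀ a ∈ u, ∀ b ∈ v, a < b

abbrev Wd := List ℕ → Prop

/-- direct sum of two families of words -/
def SumP (P Q : Wd) : Wd := fun w => ∃ u v, w = u ++ v ∧ P u ∧ Q v ∧ Lt u v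

/-- skew sum of two families of words -/
def SkewP (P Q : Wd) : Wd := fun w => ∃ u v, w = u ++ v ∧ P u ∧ Q v ∧ Lt v u

theorem Lt.nil_left (v : List ℕ) : Lt [] v := by intro a ha; simp at ha
theorem Lt.nil_right (v : List ℕ) : Lt v [] := by intro a _ b hb; simp at hb

theorem Lt.mono {u v u' v' : List ℕ} (h : Lt u v) (hu : u' ⊆ u) (hv : v' ⊆ v) : Lt u' v' :=
  fun a ha b hb => h a (hu ha) b (hv hb)

theorem lt_append_left {u u' v : List ℕ} : Lt (u ++ u') v ↔ Lt u v ∧ Lt u' v := by
  constructor
  · intro h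
    exact ⟨h.mono (by simp) (fun _ h => h), h.mono (by simp) (fun _ h => h)⟩
  · rintro ⟨h1, h2⟩ a ha b hb
    rcases List.mem_append.1 ha with h | h
    · exact h1 a h b hb
    · exact h2 a h b hb

theorem lt_append_right {u v v' : List ℕ} : Lt u (v ++ v') ↔ Lt u v ∧ Lt u v' := by
  constructor
  · intro h
    exact ⟨h.mono (fun _ h => h) (by simp), h.mono (fun _ h => h) (by simp)⟩
  · rintro ⟨h1, h2⟩ a ha b hb
    rcases List.mem_append.1 hb with h | h
    · exact h1 a ha b h
    · exact h2 a ha b h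

theorem lt_cons_left {x : ℕ} {u v : List ℕ} : Lt (x :: u) v ↔ Lt [x] v ∧ Lt u v := by
  rw [show x :: u = [x] ++ u from rfl, lt_append_left]

theorem lt_cons_right {x : ℕ} {u v : List ℕ} : Lt u (x :: v) ↔ Lt u [x] ∧ Lt u v := by
  rw [show x :: v = [x] ++ v from rfl, lt_append_right]

theorem lt_single {x y : ℕ} : Lt [x] [y] ↔ x < y := by simp [Lt]

/-- `ins true m v = m :: v` and `ins false m v = v ++ [m]` -/
def ins : Bool → ℕ → List ℕ → List ℕ
  | true, m, v => m :: v
  | false, m, v => v ++ [m]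

/-- the order condition making `ins b m v` the skew sum of a point and `v` -/
def Cond : Bool → ℕ → List ℕ → Prop
  | true, m, v => Lt v [m]
  | false, m, v => Lt [m] v

/-- `A true` is the class of words avoiding 231, `A false` the class of words avoiding 312 -/
inductive A (b : Bool) : Wd
  | nil : A b []
  | step {u v : List ℕ} {m : ℕ} : A b u → A b v → Cond b m v → Lt u (ins b m v) →
      A b (u ++ ins b m v)

/-- `L true` is the class avoiding 231, 1423, 1432, and `L false` the class of its inverses -/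
inductive L (b : Bool) : Wd
  | nil : L b []
  | sk {v : List ℕ} {m : ℕ} : L b v → Cond b m v → L b (ins b m v)
  | one {u : List ℕ} {m : ℕ} : L b u → u ≠ [] → Lt u [m] → L b (u ++ [m])
  | two {u : List ℕ} {x y : ℕ} : L b u → u ≠ [] → Lt u [y, x] → x < y → L b (u ++ [y, x])

/-- the sum-indecomposable members of `A b` -/
def B (b : Bool) : Wd := fun w => ∃ m v, w = ins b m v ∧ A b v ∧ Cond b m v

/-- nonempty members -/
def Ne (P : Wd) : Wd := fun w => P w ∧ w ≠ []

def One : Wd := fun w => ∃ m, w = [m]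
def Two : Wd := fun w => ∃ x y, w = [y, x] ∧ x < y

/-- the sum-decomposable members of `A b` -/
def D (b : Bool) : Wd := SumP (Ne (A b)) (B b)

/-- the sum-decomposable members of `L b` -/
def E (b : Bool) : Wd := fun w => SumP (Ne (L b)) One w ∨ SumP (Ne (L b)) Two w

/-- skew sums of points and members of `E` -/
inductive Sp (E : Wd) : Wd
  | nil : Sp E []
  | one {m : ℕ} {v : List ℕ} : Sp E v → Lt v [m] → Sp E (m :: v)
  | big {u v : List ℕ} : E u → Sp E v → Lt v u → Sp E (u ++ v)

/-- some points, then possibly a member of `D`, then a member of `S` (skew sum) -/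
inductive Tp (D S : Wd) : Wd
  | nil : Tp D S []
  | one {m : ℕ} {v : List ℕ} : Tp D S v → Lt v [m] → Tp D S (m :: v)
  | big {u v : List ℕ} : D u → S v → Lt v u → Tp D S (u ++ v)

/-- the sum-indecomposable members of `Tp D S` -/
def Gp (D S : Wd) : Wd := fun w => SkewP One (Tp D S) w ∨ SkewP D (Ne S) w

/-- sums of members of `G` -/
inductive Xp (G : Wd) : Wd
  | nil : Xp G []
  | cons {u v : List ℕ} : G u → Xp G v → Lt u v → Xp G (u ++ v)

abbrev S (b : Bool) : Wd := Sp (E b)
abbrev T (b : Bool) : Wd := Tp (D b) (S b)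
abbrev G (b : Bool) : Wd := Gp (D b) (S b)
abbrev X (b : Bool) : Wd := Xp (G b)

/-- the class -/
def C : Wd := SumP (X true) (X false)

/-- closed under taking sublists -/
def Hered (P : Wd) : Prop := ∀ w w', P w → List.Sublist w' w → P w'

/-! ### basic closure properties -/

theorem ins_ne_nil (b : Bool) (m : ℕ) (v : List ℕ) : ins b m v ≠ [] := by
  cases b <;> simp [ins]

theorem mem_ins {b : Bool} {m : ℕ} {v : List ℕ} {x : ℕ} : x ∈ ins b m v ↔ x = m ∨ x ∈ v := by
  cases b <;> simp [ins, or_comm]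

theorem Cond.mono {b : Bool} {m : ℕ} {v v' : List ℕ} (h : Cond b m v) (hv : v' ⊆ v) :
    Cond b m v' := by
  cases b
  · exact Lt.mono h (fun _ h => h) hv
  · exact Lt.mono h hv (fun _ h => h)

theorem sublist_ins {b : Bool} {m : ℕ} {v w : List ℕ} (h : List.Sublist w (ins b m v)) :
    List.Sublist w v ∨ ∃ v', w = ins b m v' ∧ List.Sublist v' v := by
  cases b
  · rcases List.sublist_append_iff.1 h with ⟨l1, l2, rfl, h1, h2⟩
    rcases List.sublist_cons_iff.1 h2 with h3 | ⟨r, rfl, h3⟩
    · have : l2 = [] := List.sublist_nil.1 h3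
      subst this
      left; simpa using h1
    · have : r = [] := List.sublist_nil.1 h3
      subst this
      right; exact ⟨l1, rfl, h1⟩
  · rcases List.sublist_cons_iff.1 h with h3 | ⟨r, rfl, h3⟩
    · exact Or.inl h3
    · exact Or.inr ⟨r, rfl, h3⟩

theorem A.ins {b : Bool} {m : ℕ} {v : List ℕ} (h : A b v) (hc : Cond b m v) :
    A b (SepClass.ins b m v) := by
  have := A.step (b := b) A.nil h hc (Lt.nil_left _)
  simpa using this

theorem A.sum {b : Bool} {u v : List ℕ} (hu : A b u) (hv : A b v) (h : Lt u v) :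
    A b (u ++ v) := by
  induction hv with
  | nil => simpa using hu
  | @step u1 v1 m h1 h2 hc hl ih1 ih2 =>
    rw [← List.append_assoc]
    rw [lt_append_right] at h
    refine A.step (ih1 h.1) h2 hc ?_
    rw [lt_append_left]
    exact ⟨h.2, hl⟩

theorem A.hered (b : Bool) : Hered (A b) := by
  intro w w' hw
  induction hw generalizing w' with
  | nil => intro h; rw [List.sublist_nil.1 h]; exact A.nil
  | @step u v m h1 h2 hc hl ih1 ih2 =>
    intro h
    rcases List.sublist_append_iff.1 h with ⟨l1, l2, rfl, hl1, hl2⟩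
    rcases sublist_ins hl2 with h3 | ⟨v', rfl, h3⟩
    · refine A.sum (ih1 _ hl1) (ih2 _ h3) (hl.mono hl1.subset ?_)
      intro x hx
      rw [mem_ins]; exact Or.inr (h3.subset hx)
    · refine A.step (ih1 _ hl1) (ih2 _ h3) (hc.mono h3.subset) (hl.mono hl1.subset ?_)
      intro x hx
      rw [mem_ins] at hx ⊢
      exact hx.imp id (fun h => h3.subset h)

theorem B.A {b : Bool} {w : List ℕ} (h : B b w) : A b w := by
  obtain ⟨m, v, rfl, h1, h2⟩ := h
  exact h1.ins h2

theorem A_iff {b : Bool} {w : List ℕ} : A b w ↔ w = [] ∨ SumP (A b) (B b) w := by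
  constructor
  · rintro (_ | ⟨h1, h2, hc, hl⟩)
    · exact Or.inl rfl
    · exact Or.inr ⟨_, _, rfl, h1, ⟨_, _, rfl, h2, hc⟩, hl⟩
  · rintro (rfl | ⟨u, v, rfl, h1, ⟨m, v', rfl, h2, hc⟩, hl⟩)
    · exact A.nil
    · exact A.step h1 h2 hc hl

theorem D.A {b : Bool} {w : List ℕ} (h : D b w) : A b w := by
  obtain ⟨u, v, rfl, h1, h2, h3⟩ := h
  exact A.sum h1.1 h2.A h3

theorem A_cases {b : Bool} {w : List ℕ} (h : A b w) :
    w = [] ∨ B b w ∨ D b w := by
  rcases A_iff.1 h with rfl | ⟨u, v, rfl, h1, h2, h3⟩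
  · exact Or.inl rfl
  · right
    by_cases hu : u = []
    · subst hu; left; simpa using h2
    · right; exact ⟨u, v, rfl, ⟨h1, hu⟩, h2, h3⟩

theorem single_B (b : Bool) (m : ℕ) : B b [m] := by
  refine ⟨m, [], ?_, A.nil, ?_⟩
  · cases b <;> rfl
  · cases b
    · exact Lt.nil_right _
    · exact Lt.nil_left _

theorem A.single (b : Bool) (m : ℕ) : A b [m] := (single_B b m).A

theorem B_two (b : Bool) {x y : ℕ} (h : x < y) : B b [y, x] := by
  cases b
  · exact ⟨x, [y], rfl, A.single _ _, by simpa [Cond, Lt] using h⟩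
  · exact ⟨y, [x], rfl, A.single _ _, by simpa [Cond, Lt] using h⟩

theorem L.A {b : Bool} {w : List ℕ} (h : L b w) : A b w := by
  induction h with
  | nil => exact SepClass.A.nil
  | sk h hc ih => exact ih.ins hc
  | one h hu hl ih => exact ih.sum (A.single _ _) hl
  | two h hu hl hxy ih => exact ih.sum (B_two b hxy).A hl

theorem E.D {b : Bool} {w : List ℕ} (h : E b w) : D b w := by
  rcases h with ⟨u, v, rfl, h1, ⟨m, rfl⟩, h3⟩ | ⟨u, v, rfl, h1, ⟨x, y, rfl, hxy⟩, h3⟩
  · exact ⟨u, _, rfl, ⟨h1.1.A, h1.2⟩, single_B b m, h3⟩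
  · exact ⟨u, _, rfl, ⟨h1.1.A, h1.2⟩, B_two b hxy, h3⟩

theorem E.L {b : Bool} {w : List ℕ} (h : E b w) : L b w := by
  rcases h with ⟨u, v, rfl, h1, ⟨m, rfl⟩, h3⟩ | ⟨u, v, rfl, h1, ⟨x, y, rfl, hxy⟩, h3⟩
  · exact L.one h1.1 h1.2 h3
  · exact L.two h1.1 h1.2 h3 hxy

/-- the point-first members of `L b` -/
def BL (b : Bool) : Wd := fun w => ∃ m v, w = ins b m v ∧ L b v ∧ Cond b m v

theorem BL.B {b : Bool} {w : List ℕ} (h : BL b w) : B b w := by
  obtain ⟨m, v, rfl, h1, h2⟩ := h
  exact ⟨m, v, rfl, h1.A, h2⟩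

theorem L_iff {b : Bool} {w : List ℕ} : L b w ↔ w = [] ∨ BL b w ∨ E b w := by
  constructor
  · rintro (_ | ⟨h, hc⟩ | ⟨h, hu, hl⟩ | ⟨h, hu, hl, hxy⟩)
    · exact Or.inl rfl
    · exact Or.inr (Or.inl ⟨_, _, rfl, h, hc⟩)
    · exact Or.inr (Or.inr (Or.inl ⟨_, _, rfl, ⟨h, hu⟩, ⟨_, rfl⟩, hl⟩))
    · exact Or.inr (Or.inr (Or.inr ⟨_, _, rfl, ⟨h, hu⟩, ⟨_, _, rfl, hxy⟩, hl⟩))
  · rintro (rfl | ⟨m, v, rfl, h, hc⟩ | h)
    · exact L.nil
    · exact L.sk h hc
    · exact h.L

theorem L.single (b : Bool) (m : ℕ) : L b [m] := by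
  cases b
  · exact L.sk (b := false) L.nil (Lt.nil_right _)
  · exact L.sk (b := true) L.nil (Lt.nil_left _)

theorem L.pair (b : Bool) {x y : ℕ} (h : x < y) : L b [y, x] := by
  cases b
  · exact L.sk (b := false) (v := [y]) (m := x) (L.single _ _) (lt_single.2 h)
  · exact L.sk (b := true) (v := [x]) (m := y) (L.single _ _) (lt_single.2 h)

theorem L.add_one {b : Bool} {u : List ℕ} {m : ℕ} (h : L b u) (hl : Lt u [m]) :
    L b (u ++ [m]) := by
  by_cases hu : u = []
  · subst hu; exact L.single _ _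
  · exact L.one h hu hl

theorem L.add_two {b : Bool} {u : List ℕ} {x y : ℕ} (h : L b u) (hl : Lt u [y, x]) (hxy : x < y) :
    L b (u ++ [y, x]) := by
  by_cases hu : u = []
  · subst hu; exact L.pair _ hxy
  · exact L.two h hu hl hxy

theorem L.hered (b : Bool) : Hered (L b) := by
  intro w w' hw
  induction hw generalizing w' with
  | nil => intro h; rw [List.sublist_nil.1 h]; exact L.nil
  | @sk v m h hc ih =>
    intro h'
    rcases sublist_ins h' with h3 | ⟨v', rfl, h3⟩
    · exact ih _ h3
    · exact L.sk (ih _ h3) (hc.mono h3.subset)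
  | @one u m h hu hl ih =>
    intro h'
    rcases List.sublist_append_iff.1 h' with ⟨l1, l2, rfl, hl1, hl2⟩
    rcases List.sublist_cons_iff.1 hl2 with h3 | ⟨r, rfl, h3⟩
    · rw [List.sublist_nil.1 h3]; simpa using ih _ hl1
    · rw [List.sublist_nil.1 h3]
      exact (ih _ hl1).add_one (hl.mono hl1.subset (fun _ h => h))
  | @two u x y h hu hl hxy ih =>
    intro h'
    rcases List.sublist_append_iff.1 h' with ⟨l1, l2, rfl, hl1, hl2⟩
    have hlx : Lt u [x] := hl.mono (fun _ h => h) (by simp)
    have hly : Lt u [y] := hl.mono (fun _ h => h) (by simp)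
    rcases List.sublist_cons_iff.1 hl2 with h3 | ⟨r, rfl, h3⟩
    · rcases List.sublist_cons_iff.1 h3 with h4 | ⟨r, rfl, h4⟩
      · rw [List.sublist_nil.1 h4]; simpa using ih _ hl1
      · rw [List.sublist_nil.1 h4]
        exact (ih _ hl1).add_one (hlx.mono hl1.subset (fun _ h => h))
    · rcases List.sublist_cons_iff.1 h3 with h4 | ⟨r, rfl, h4⟩
      · rw [List.sublist_nil.1 h4]
        exact (ih _ hl1).add_one (hly.mono hl1.subset (fun _ h => h))
      · rw [List.sublist_nil.1 h4]
        exact (ih _ hl1).add_two (hl.mono hl1.subset (fun _ h => h)) hxy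

/-! ### the skew closures -/

/-- `S` absorbs members of `L` on the left -/
theorem S.left {b : Bool} {u : List ℕ} (hu : L b u) :
    ∀ {v : List ℕ}, S b v → Lt v u → S b (u ++ v) := by
  induction hu with
  | nil => intro v hv _; simpa using hv
  | @sk v1 m h hc ih =>
    intro v hv hl
    cases b
    · -- v1 ++ [m]
      have hl' : Lt v v1 := hl.mono (fun _ h => h) (by intro x hx; rw [mem_ins]; exact Or.inr hx)
      have hm : Lt v [m] := hl.mono (fun _ h => h) (by intro x hx; rw [mem_ins]; simp at hx; simp [hx])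
      show S false ((v1 ++ [m]) ++ v)
      rw [List.append_assoc]
      refine ih (v := m :: v) (Sp.one hv hm) ?_
      rw [lt_cons_left]
      exact ⟨hc, hl'⟩
    · show S true ((m :: v1) ++ v)
      have hl' : Lt v v1 := hl.mono (fun _ h => h) (by intro x hx; rw [mem_ins]; exact Or.inr hx)
      have hm : Lt v [m] := hl.mono (fun _ h => h) (by intro x hx; rw [mem_ins]; simp at hx; simp [hx])
      refine Sp.one (ih hv hl') ?_
      show Lt (v1 ++ v) [m]
      rw [lt_append_left]
      exact ⟨hc, hm⟩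
  | @one u1 m h hu hl1 ih =>
    intro v hv hl
    exact Sp.big (Or.inl ⟨_, _, rfl, ⟨h, hu⟩, ⟨_, rfl⟩, hl1⟩) hv hl
  | @two u1 x y h hu hl1 hxy ih =>
    intro v hv hl
    exact Sp.big (Or.inr ⟨_, _, rfl, ⟨h, hu⟩, ⟨_, _, rfl, hxy⟩, hl1⟩) hv hl

theorem S.hered (b : Bool) : Hered (S b) := by
  intro w w' hw
  induction hw generalizing w' with
  | nil => intro h; rw [List.sublist_nil.1 h]; exact Sp.nil
  | @one m v h hl ih =>
    intro h'
    rcases List.sublist_cons_iff.1 h' with h3 | ⟨r, rfl, h3⟩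
    · exact ih _ h3
    · exact Sp.one (ih _ h3) (hl.mono h3.subset (fun _ h => h))
  | @big u v hu hv hl ih =>
    intro h'
    rcases List.sublist_append_iff.1 h' with ⟨l1, l2, rfl, hl1, hl2⟩
    exact S.left (L.hered b _ _ hu.L hl1) (ih _ hl2) (hl.mono hl2.subset hl1.subset)

theorem S.T {b : Bool} {w : List ℕ} (h : S b w) : T b w := by
  induction h with
  | nil => exact Tp.nil
  | one h hl ih => exact Tp.one ih hl
  | big hu hv hl ih => exact Tp.big hu.D hv hl

/-- `T` contains skew sums of a member of `A` and a member of `S` -/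
theorem T.left {b : Bool} {u : List ℕ} (hu : A b u) :
    ∀ {v : List ℕ}, S b v → Lt v u → T b (u ++ v) := by
  induction hu with
  | nil => intro v hv _; simpa using S.T hv
  | @step u1 v1 m h1 h2 hc hl1 ih1 ih2 =>
    intro v hv hl
    by_cases hu1 : u1 = []
    · subst hu1
      simp only [List.nil_append] at hl ⊢
      have hl' : Lt v v1 := hl.mono (fun _ h => h) (by intro x hx; rw [mem_ins]; exact Or.inr hx)
      have hm : Lt v [m] := hl.mono (fun _ h => h) (by intro x hx; rw [mem_ins]; simp at hx; simp [hx])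
      cases b
      · show T false ((v1 ++ [m]) ++ v)
        rw [List.append_assoc]
        refine ih2 (v := m :: v) (Sp.one hv hm) ?_
        rw [lt_cons_left]
        exact ⟨hc, hl'⟩
      · show T true ((m :: v1) ++ v)
        refine Tp.one (ih2 hv hl') ?_
        show Lt (v1 ++ v) [m]
        rw [lt_append_left]
        exact ⟨hc, hm⟩
    · exact Tp.big ⟨_, _, rfl, ⟨h1, hu1⟩, ⟨_, _, rfl, h2, hc⟩, hl1⟩ hv hl

theorem A.T {b : Bool} {w : List ℕ} (h : A b w) : T b w := by
  have := T.left h (v := []) Sp.nil (Lt.nil_left _)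
  simpa using this

theorem T.hered (b : Bool) : Hered (T b) := by
  intro w w' hw
  induction hw generalizing w' with
  | nil => intro h; rw [List.sublist_nil.1 h]; exact Tp.nil
  | @one m v h hl ih =>
    intro h'
    rcases List.sublist_cons_iff.1 h' with h3 | ⟨r, rfl, h3⟩
    · exact ih _ h3
    · exact Tp.one (ih _ h3) (hl.mono h3.subset (fun _ h => h))
  | @big u v hu hv hl =>
    intro h'
    rcases List.sublist_append_iff.1 h' with ⟨l1, l2, rfl, hl1, hl2⟩
    exact T.left (A.hered b _ _ hu.A hl1) (S.hered b _ _ hv hl2) (hl.mono hl2.subset hl1.subset)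

theorem Xp.of {G : Wd} {w : List ℕ} (h : G w) : Xp G w := by
  have := Xp.cons h Xp.nil (Lt.nil_right _)
  simpa using this

theorem Xp.sum {G : Wd} {u v : List ℕ} (hu : Xp G u) (hv : Xp G v) (h : Lt u v) :
    Xp G (u ++ v) := by
  induction hu with
  | nil => simpa using hv
  | @cons u1 v1 h1 h2 hl ih =>
    rw [lt_append_left] at h
    rw [List.append_assoc]
    refine Xp.cons h1 (ih h.2) ?_
    rw [lt_append_right]
    exact ⟨hl, h.1⟩

theorem X.ins {b : Bool} {m : ℕ} {v : List ℕ} (h : A b v) (hc : Cond b m v) :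
    X b (ins b m v) := by
  cases b
  · -- v ++ [m]
    have hc' : Lt [m] v := hc
    by_cases hv : v = []
    · subst hv
      exact Xp.of (Or.inl ⟨[m], [], rfl, ⟨m, rfl⟩, Tp.nil, Lt.nil_left _⟩)
    · -- T (v ++ [m]); it is skew decomposable
      have hT : T false (v ++ [m]) :=
        T.left h (v := [m]) (Sp.one Sp.nil (Lt.nil_left _)) hc'
      show X false (v ++ [m])
      generalize hw : v ++ [m] = w at hT
      cases hT with
      | nil => simp at hw
      | @one m1 v1 h1 hl => exact Xp.of (Or.inl ⟨[m1], v1, rfl, ⟨m1, rfl⟩, h1, hl⟩)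
      | @big u1 v1 hu1 hv1 hl =>
        by_cases hv1e : v1 = []
        · -- impossible: u1 is sum decomposable but u1 = v ++ [m] is skew decomposable
          exfalso
          subst hv1e
          obtain ⟨s, t, rfl, hs, ht, hst⟩ := hu1
          have hs' := hs.2
          have ht' : t ≠ [] := by
            obtain ⟨m2, v2, rfl, _, _⟩ := ht
            exact ins_ne_nil _ _ _
          simp only [List.append_nil] at hw
          -- first letter
          obtain ⟨a, s1, rfl⟩ := List.exists_cons_of_ne_nil hs'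
          obtain ⟨a', v1, rfl⟩ := List.exists_cons_of_ne_nil hv
          have e1 : a' = a := by simpa using (List.cons.inj hw).1
          subst e1
          rcases List.eq_nil_or_concat t with h0 | ⟨t1, z, rfl⟩
          · exact ht' h0
          · have e2 : m = z := by
              have h5 : (a' :: v1) ++ [m] = ((a' :: s1) ++ t1) ++ [z] := by
                rw [hw]; simp
              have := (List.append_inj' h5 rfl).2
              simpa using this
            subst e2
            have h1 : a' < m := hst a' (by simp) m (by simp)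
            have h2 : m < a' := hc' m (by simp) a' (by simp)
            omega
        · exact Xp.of (Or.inr ⟨u1, v1, rfl, hu1, ⟨hv1, hv1e⟩, hl⟩)
  · exact Xp.of (Or.inl ⟨[m], v, rfl, ⟨m, rfl⟩, A.T h, hc⟩)

theorem A.X {b : Bool} {w : List ℕ} (h : A b w) : X b w := by
  induction h with
  | nil => exact Xp.nil
  | @step u v m h1 h2 hc hl ih1 ih2 => exact Xp.sum ih1 (X.ins h2 hc) hl

theorem T.X {b : Bool} {w : List ℕ} (h : T b w) : X b w := by
  cases h with
  | nil => exact Xp.nil
  | @one m v h hl => exact Xp.of (Or.inl ⟨[m], v, rfl, ⟨m, rfl⟩, h, hl⟩)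
  | @big u v hu hv hl =>
    by_cases hve : v = []
    · subst hve
      simpa using hu.A.X
    · exact Xp.of (Or.inr ⟨u, v, rfl, hu, ⟨hv, hve⟩, hl⟩)

theorem G.T {b : Bool} {w : List ℕ} (h : G b w) : T b w := by
  rcases h with ⟨u, v, rfl, ⟨m, rfl⟩, h2, h3⟩ | ⟨u, v, rfl, h1, h2, h3⟩
  · exact Tp.one h2 h3
  · exact Tp.big h1 h2.1 h3

theorem X.hered (b : Bool) : Hered (X b) := by
  intro w w' hw
  induction hw generalizing w' with
  | nil => intro h; rw [List.sublist_nil.1 h]; exact Xp.nil
  | @cons u v hu hv hl ih =>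
    intro h'
    rcases List.sublist_append_iff.1 h' with ⟨l1, l2, rfl, hl1, hl2⟩
    exact Xp.sum (T.X (T.hered b _ _ (G.T hu) hl1)) (ih _ hl2) (hl.mono hl1.subset hl2.subset)

theorem SumP.hered {P Q : Wd} (hP : Hered P) (hQ : Hered Q) : Hered (SumP P Q) := by
  rintro w w' ⟨u, v, rfl, hu, hv, hl⟩ h'
  rcases List.sublist_append_iff.1 h' with ⟨l1, l2, rfl, hl1, hl2⟩
  exact ⟨l1, l2, rfl, hP _ _ hu hl1, hQ _ _ hv hl2, hl.mono hl1.subset hl2.subset⟩

theorem C.hered : Hered C := SumP.hered (X.hered true) (X.hered false)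

/-! ### words avoiding 231 -/

def Av231 : Wd := fun w => ∀ a b c, a < b → b < c → ¬ List.Sublist [b, c, a] w

theorem A_of_av231 : ∀ (n : ℕ) (w : List ℕ), w.length = n → w.Nodup → Av231 w → A true w := by
  intro n
  induction n using Nat.strong_induction_on with
  | _ n ih =>
    intro w hn hnd hav
    by_cases hw : w = []
    · subst hw; exact A.nil
    · -- maximum letter
      obtain ⟨m, hm, hmax⟩ : ∃ m ∈ w, ∀ x ∈ w, x ≤ m := by
        obtain ⟨m, hm⟩ := List.exists_mem_of_ne_nil w hw
        have hne : w.toFinset.Nonempty := ⟨m, by simpa using hm⟩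
        refine ⟨w.toFinset.max' hne, by simpa using w.toFinset.max'_mem hne, ?_⟩
        intro x hx
        exact Finset.le_max' _ _ (by simpa using hx)
      obtain ⟨u, v, rfl⟩ := List.append_of_mem hm
      have hnd' := hnd
      rw [List.nodup_append] at hnd'
      obtain ⟨hndu, hndmv, hdisj⟩ := hnd'
      rw [List.nodup_cons] at hndmv
      obtain ⟨hmv, hndv⟩ := hndmv
      have hum : Lt u [m] := by
        intro a ha b hb
        simp at hb; subst hb
        have h1 := hmax a (by simp [ha])
        have h2 : a ≠ b := hdisj a ha b (by simp)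
        omega
      have hvm : Lt v [m] := by
        intro a ha b hb
        simp at hb; subst hb
        have h1 := hmax a (by simp [ha])
        have h2 : a ≠ b := by rintro rfl; exact hmv ha
        omega
      have huv : Lt u v := by
        intro a ha b hb
        by_contra hcon
        have h2 : a ≠ b := hdisj a ha b (by simp [hb])
        have h3 : b < a := by omega
        have h4 : a < m := hum a ha m (by simp)
        refine hav b a m h3 h4 ?_
        rw [show [a, m, b] = [a] ++ (m :: [b]) from rfl]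
        exact List.Sublist.append (List.singleton_sublist.2 ha)
          (List.Sublist.cons_cons m (List.singleton_sublist.2 hb))
      have hlen : u.length + (v.length + 1) = n := by simpa using hn
      have hAu : A true u := ih u.length (by omega) u rfl hndu (by
        intro a b c h1 h2 h3
        exact hav a b c h1 h2 (h3.trans (List.sublist_append_left _ _)))
      have hAv : A true v := ih v.length (by omega) v rfl hndv (by
        intro a b c h1 h2 h3
        exact hav a b c h1 h2 (h3.trans ((List.sublist_cons_self _ _).trans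
          (List.sublist_append_right _ _))))
      have : Lt u (ins true m v) := by
        show Lt u (m :: v)
        rw [lt_cons_right]; exact ⟨hum, huv⟩
      exact A.step hAu hAv hvm this

theorem C_of_av231 {w : List ℕ} (hnd : w.Nodup) (h : Av231 w) : C w :=
  ⟨w, [], by simp, (A_of_av231 _ w rfl hnd h).X, Xp.nil, Lt.nil_right _⟩

/-! ### separability -/

/-- avoids 2413 and 3142 -/
def Sep : Wd := fun w => ∀ a b c d, a < b → b < c → c < d →
  ¬ List.Sublist [b, d, a, c] w ∧ ¬ List.Sublist [c, a, d, b] w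

theorem Sep.nil : Sep [] := by
  intro a b c d _ _ _
  simp

theorem Sep.single (m : ℕ) : Sep [m] := by
  intro a b c d _ _ _
  constructor
  · intro h; have := h.length_le; simp at this
  · intro h; have := h.length_le; simp at this

theorem four_split {p q r s : ℕ} {u v : List ℕ} (h : List.Sublist [p, q, r, s] (u ++ v)) :
    List.Sublist [p, q, r, s] v ∨ ([p] ⊆ u ∧ [q, r, s] ⊆ v) ∨ ([p, q] ⊆ u ∧ [r, s] ⊆ v) ∨
      ([p, q, r] ⊆ u ∧ [s] ⊆ v) ∨ List.Sublist [p, q, r, s] u := by
  rcases List.sublist_append_iff.1 h with ⟨l1, l2, h0, h1, h2⟩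
  have e1 := h1.subset
  have e2 := h2.subset
  rcases l1 with _ | ⟨x1, _ | ⟨x2, _ | ⟨x3, _ | ⟨x4, l1⟩⟩⟩⟩
  · simp at h0; subst h0; exact Or.inl h2
  · simp at h0; obtain ⟨rfl, rfl⟩ := h0; exact Or.inr (Or.inl ⟨e1, e2⟩)
  · simp at h0; obtain ⟨rfl, rfl, rfl⟩ := h0; exact Or.inr (Or.inr (Or.inl ⟨e1, e2⟩))
  · simp at h0; obtain ⟨rfl, rfl, rfl, rfl⟩ := h0
    exact Or.inr (Or.inr (Or.inr (Or.inl ⟨e1, e2⟩)))
  · simp at h0; obtain ⟨rfl, rfl, rfl, rfl, rfl, rfl⟩ := h0
    exact Or.inr (Or.inr (Or.inr (Or.inr h1)))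

theorem Sep.sum {u v : List ℕ} (hu : Sep u) (hv : Sep v) (h : Lt u v) : Sep (u ++ v) := by
  intro a b c d hab hbc hcd
  constructor
  · intro hs
    rcases four_split hs with h1 | ⟨h1, h2⟩ | ⟨h1, h2⟩ | ⟨h1, h2⟩ | h1
    · exact (hv a b c d hab hbc hcd).1 h1
    · have := h b (h1 (by simp)) a (h2 (by simp)); omega
    · have := h b (h1 (by simp)) a (h2 (by simp)); omega
    · have := h d (h1 (by simp)) c (h2 (by simp)); omega
    · exact (hu a b c d hab hbc hcd).1 h1
  · intro hs
    rcases four_split hs with h1 | ⟨h1, h2⟩ | ⟨h1, h2⟩ | ⟨h1, h2⟩ | h1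
    · exact (hv a b c d hab hbc hcd).2 h1
    · have := h c (h1 (by simp)) a (h2 (by simp)); omega
    · have := h c (h1 (by simp)) b (h2 (by simp)); omega
    · have := h d (h1 (by simp)) b (h2 (by simp)); omega
    · exact (hu a b c d hab hbc hcd).2 h1

theorem Sep.skew {u v : List ℕ} (hu : Sep u) (hv : Sep v) (h : Lt v u) : Sep (u ++ v) := by
  intro a b c d hab hbc hcd
  constructor
  · intro hs
    rcases four_split hs with h1 | ⟨h1, h2⟩ | ⟨h1, h2⟩ | ⟨h1, h2⟩ | h1
    · exact (hv a b c d hab hbc hcd).1 h1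
    · have := h d (h2 (by simp)) b (h1 (by simp)); omega
    · have := h c (h2 (by simp)) b (h1 (by simp)); omega
    · have := h c (h2 (by simp)) a (h1 (by simp)); omega
    · exact (hu a b c d hab hbc hcd).1 h1
  · intro hs
    rcases four_split hs with h1 | ⟨h1, h2⟩ | ⟨h1, h2⟩ | ⟨h1, h2⟩ | h1
    · exact (hv a b c d hab hbc hcd).2 h1
    · have := h d (h2 (by simp)) c (h1 (by simp)); omega
    · have := h d (h2 (by simp)) c (h1 (by simp)); omega
    · have := h b (h2 (by simp)) a (h1 (by simp)); omega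
    · exact (hu a b c d hab hbc hcd).2 h1

theorem Sep.ins {b : Bool} {m : ℕ} {v : List ℕ} (h : Sep v) (hc : Cond b m v) :
    Sep (SepClass.ins b m v) := by
  cases b
  · exact h.skew (Sep.single m) hc
  · exact (Sep.single m).skew h hc

theorem A.Sep {b : Bool} {w : List ℕ} (h : A b w) : Sep w := by
  induction h with
  | nil => exact SepClass.Sep.nil
  | step h1 h2 hc hl ih1 ih2 => exact ih1.sum (ih2.ins hc) hl

theorem S.Sep {b : Bool} {w : List ℕ} (h : S b w) : Sep w := by
  induction h with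
  | nil => exact SepClass.Sep.nil
  | one h hl ih => exact (SepClass.Sep.single _).skew ih hl
  | big hu hv hl ih => exact hu.D.A.Sep.skew ih hl

theorem T.Sep {b : Bool} {w : List ℕ} (h : T b w) : Sep w := by
  induction h with
  | nil => exact SepClass.Sep.nil
  | one h hl ih => exact (SepClass.Sep.single _).skew ih hl
  | big hu hv hl => exact hu.A.Sep.skew (S.Sep hv) hl

theorem X.Sep {b : Bool} {w : List ℕ} (h : X b w) : Sep w := by
  induction h with
  | nil => exact SepClass.Sep.nil
  | cons hu hv hl ih => exact (T.Sep (G.T hu)).sum ih hl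

theorem C.Sep {w : List ℕ} (h : C w) : Sep w := by
  obtain ⟨u, v, rfl, hu, hv, hl⟩ := h
  exact (X.Sep hu).sum (X.Sep hv) hl

end Pool.Agent.SepClass
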