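import Pool.Agent.SepClass.Basic

/-!
# Counting words: product and union rules for generating functions
-/

namespace Pool.Agent.SepClass

open PowerSeries

/-- standard words of length `n` (one-line notations of permutations of `0, …, n-1`) -/
noncomputable def W (n : ℕ) : Finset (List ℕ) := (List.range n).permutations.toFinset

theorem mem_W {n : ℕ} {w : List ℕ} : w ∈ W n ↔ List.Perm w (List.range n) := by
  simp [W, List.mem_permutations]

open Classical in
/-- the standard words of length `n` satisfying `P` -/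
noncomputable def FW (P : Wd) (n : ℕ) : Finset (List ℕ) := (W n).filter P

theorem mem_FW {P : Wd} {n : ℕ} {w : List ℕ} :
    w ∈ FW P n ↔ List.Perm w (List.range n) ∧ P w := by
  classical
  rw [FW, Finset.mem_filter, mem_W]

/-- number of standard words of length `n` satisfying `P` -/
noncomputable def cnt (P : Wd) (n : ℕ) : ℕ := (FW P n).card

/-- generating function of a family of words -/
noncomputable def GF (P : Wd) : PowerSeries ℤ := PowerSeries.mk fun n => (cnt P n : ℤ)

/-- invariance under order isomorphism -/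
def Inv (P : Wd) : Prop := ∀ (l : List ℕ) (g : ℕ → ℕ), P l →
  (∀ a ∈ l, ∀ b ∈ l, a < b → g a < g b) → P (l.map g)

theorem perm_range_of {l : List ℕ} (hnd : l.Nodup) (h : ∀ x ∈ l, x < l.length) :
    List.Perm l (List.range l.length) := by
  have h1 : List.Subperm l (List.range l.length) :=
    List.subperm_of_subset hnd (fun x hx => List.mem_range.2 (h x hx))
  exact h1.perm_of_length_le (by simp)

theorem std_split {n : ℕ} {u v : List ℕ} (h : List.Perm (u ++ v) (List.range n)) (hl : Lt u v) :
    List.Perm u (List.range u.length) ∧ (∀ b ∈ v, u.length ≤ b) ∧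
      List.Perm (v.map (fun x => x - u.length)) (List.range v.length) := by
  have hnd : (u ++ v).Nodup := h.nodup_iff.2 List.nodup_range
  have hmem : ∀ x, x ∈ u ++ v ↔ x < n := fun x => by rw [h.mem_iff, List.mem_range]
  have hlen : u.length + v.length = n := by have := h.length_eq; simpa using this
  rw [List.nodup_append] at hnd
  obtain ⟨hu, hv, hd⟩ := hnd
  have hult : ∀ x ∈ u, x < u.length := by
    intro a ha
    have hsub : List.range (a + 1) ⊆ u := by
      intro x hx
      have hx' : x ≤ a := by have := List.mem_range.1 hx; omega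
      have han : a < n := (hmem a).1 (by simp [ha])
      have hxn : x ∈ u ++ v := (hmem x).2 (by omega)
      rcases List.mem_append.1 hxn with h1 | h1
      · exact h1
      · have := hl a ha x h1; omega
    have := (List.subperm_of_subset List.nodup_range hsub).length_le
    simp at this
    omega
  have hup : List.Perm u (List.range u.length) := perm_range_of hu hult
  have hvge : ∀ b ∈ v, u.length ≤ b := by
    intro b hb
    by_contra hcon
    have : b ∈ u := by rw [hup.mem_iff, List.mem_range]; omega
    exact hd b this b hb rfl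
  refine ⟨hup, hvge, ?_⟩
  have hnd' : (v.map (fun x => x - u.length)).Nodup := by
    refine (List.nodup_map_iff_inj_on hv).2 ?_
    intro x hx y hy hxy
    have := hvge x hx; have := hvge y hy
    omega
  have := perm_range_of hnd' (by
    intro x hx
    rw [List.mem_map] at hx
    obtain ⟨y, hy, rfl⟩ := hx
    have h1 := hvge y hy
    have h2 : y < n := (hmem y).1 (by simp [hy])
    simp only [List.length_map]
    omega)
  simpa using this

def UnambSum (P Q : Wd) : Prop := ∀ u v u' v', u ++ v = u' ++ v' → P u → Q v → Lt u v →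
  P u' → Q v' → Lt u' v' → u = u'

def UnambSkew (P Q : Wd) : Prop := ∀ u v u' v', u ++ v = u' ++ v' → P u → Q v → Lt v u →
  P u' → Q v' → Lt v' u' → u = u'

theorem cnt_sum {P Q : Wd} (hQ : Inv Q) (hU : UnambSum P Q) (n : ℕ) :
    cnt (SumP P Q) n = ∑ p ∈ Finset.HasAntidiagonal.antidiagonal n, cnt P p.1 * cnt Q p.2 := by
  classical
  have h1 : ∑ p ∈ Finset.HasAntidiagonal.antidiagonal n, cnt P p.1 * cnt Q p.2 =
      ((Finset.HasAntidiagonal.antidiagonal n).sigma
        (fun p => (FW P p.1) ×ˢ (FW Q p.2))).card := by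
    rw [Finset.card_sigma]
    refine Finset.sum_congr rfl fun p _ => ?_
    rw [Finset.card_product]
    simp only [cnt]
  rw [h1, cnt]
  symm
  refine Finset.card_bij (fun x _ => x.2.1 ++ x.2.2.map (fun t => t + x.1.1)) ?_ ?_ ?_
  · rintro ⟨⟨i, j⟩, u, v⟩ hx
    simp only [Finset.mem_sigma, Finset.HasAntidiagonal.mem_antidiagonal, Finset.mem_product,
      mem_FW] at hx ⊢
    obtain ⟨hij, ⟨hu, hPu⟩, hv, hQv⟩ := hx
    constructor
    · rw [← hij, List.range_add]
      refine hu.append ?_
      have := hv.map (fun t => t + i)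
      refine this.trans ?_
      rw [List.map_congr_left (fun a _ => Nat.add_comm a i)]
    · refine ⟨u, _, rfl, hPu, hQ v _ hQv (fun a _ b _ h => by simpa using h), ?_⟩
      intro a ha b hb
      rw [List.mem_map] at hb
      obtain ⟨c, hc, rfl⟩ := hb
      rw [hu.mem_iff, List.mem_range] at ha
      omega
  · rintro ⟨⟨i, j⟩, u, v⟩ hx ⟨⟨i', j'⟩, u', v'⟩ hx' heq
    simp only [Finset.mem_sigma, Finset.HasAntidiagonal.mem_antidiagonal, Finset.mem_product,
      mem_FW] at hx hx' heq
    obtain ⟨hij, ⟨hu, hPu⟩, hv, hQv⟩ := hx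
    obtain ⟨hij', ⟨hu', hPu'⟩, hv', hQv'⟩ := hx'
    have key : ∀ {i : ℕ} {u v : List ℕ}, List.Perm u (List.range i) →
        Lt u (v.map (fun t => t + i)) := by
      intro i u v hu a ha b hb
      rw [List.mem_map] at hb
      obtain ⟨c, hc, rfl⟩ := hb
      rw [hu.mem_iff, List.mem_range] at ha
      omega
    have e := hU u _ u' _ heq hPu (hQ v _ hQv (fun a _ b _ h => by simpa using h)) (key hu)
      hPu' (hQ v' _ hQv' (fun a _ b _ h => by simpa using h)) (key hu')
    subst e
    have ei : i = i' := by
      have a1 := hu.length_eq; have a2 := hu'.length_eq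
      simp at a1 a2; omega
    subst ei
    have ej : j = j' := by omega
    subst ej
    have ev := List.append_cancel_left heq
    have : v = v' := by
      refine List.map_injective_iff.2 ?_ ev
      intro a b hab; simpa using hab
    subst this
    rfl
  · intro w hw
    rw [mem_FW] at hw
    obtain ⟨hw, u, v, rfl, hPu, hQv, hl⟩ := hw
    obtain ⟨s1, s2, s3⟩ := std_split hw hl
    refine ⟨⟨(u.length, v.length), u, v.map (fun x => x - u.length)⟩, ?_, ?_⟩
    · simp only [Finset.mem_sigma, Finset.HasAntidiagonal.mem_antidiagonal, Finset.mem_product,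
        mem_FW]
      refine ⟨?_, ⟨s1, hPu⟩, s3, ?_⟩
      · have := hw.length_eq; simpa using this
      · refine hQ v _ hQv ?_
        intro a ha b hb hab
        have := s2 a ha; have := s2 b hb
        omega
    · simp only [List.map_map]
      congr 1
      conv_rhs => rw [← List.map_id v]
      refine List.map_congr_left ?_
      intro a ha
      have := s2 a ha
      simp only [Function.comp, id]
      omega

theorem cnt_skew {P Q : Wd} (hP : Inv P) (hU : UnambSkew P Q) (n : ℕ) :
    cnt (SkewP P Q) n = ∑ p ∈ Finset.HasAntidiagonal.antidiagonal n, cnt P p.1 * cnt Q p.2 := by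
  classical
  have h1 : ∑ p ∈ Finset.HasAntidiagonal.antidiagonal n, cnt P p.1 * cnt Q p.2 =
      ((Finset.HasAntidiagonal.antidiagonal n).sigma
        (fun p => (FW P p.1) ×ˢ (FW Q p.2))).card := by
    rw [Finset.card_sigma]
    refine Finset.sum_congr rfl fun p _ => ?_
    rw [Finset.card_product]
    simp only [cnt]
  rw [h1, cnt]
  symm
  refine Finset.card_bij (fun x _ => x.2.1.map (fun t => t + x.1.2) ++ x.2.2) ?_ ?_ ?_
  · rintro ⟨⟨i, j⟩, u, v⟩ hx
    simp only [Finset.mem_sigma, Finset.HasAntidiagonal.mem_antidiagonal, Finset.mem_product,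
      mem_FW] at hx ⊢
    obtain ⟨hij, ⟨hu, hPu⟩, hv, hQv⟩ := hx
    constructor
    · rw [← hij, Nat.add_comm, List.range_add]
      refine List.perm_append_comm.trans ?_
      refine hv.append ?_
      have := hu.map (fun t => t + j)
      refine this.trans ?_
      rw [List.map_congr_left (fun a _ => Nat.add_comm a j)]
    · refine ⟨_, v, rfl, hP u _ hPu (fun a _ b _ h => by simpa using h), hQv, ?_⟩
      intro a ha b hb
      rw [List.mem_map] at hb
      obtain ⟨c, hc, rfl⟩ := hb
      rw [hv.mem_iff, List.mem_range] at ha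
      omega
  · rintro ⟨⟨i, j⟩, u, v⟩ hx ⟨⟨i', j'⟩, u', v'⟩ hx' heq
    simp only [Finset.mem_sigma, Finset.HasAntidiagonal.mem_antidiagonal, Finset.mem_product,
      mem_FW] at hx hx' heq
    obtain ⟨hij, ⟨hu, hPu⟩, hv, hQv⟩ := hx
    obtain ⟨hij', ⟨hu', hPu'⟩, hv', hQv'⟩ := hx'
    have key : ∀ {j : ℕ} {u v : List ℕ}, List.Perm v (List.range j) →
        Lt v (u.map (fun t => t + j)) := by
      intro j u v hv a ha b hb
      rw [List.mem_map] at hb
      obtain ⟨c, hc, rfl⟩ := hb
      rw [hv.mem_iff, List.mem_range] at ha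
      omega
    have e := hU _ v _ v' heq (hP u _ hPu (fun a _ b _ h => by simpa using h)) hQv (key hv)
      (hP u' _ hPu' (fun a _ b _ h => by simpa using h)) hQv' (key hv')
    have ev : v = v' := by rw [e] at heq; exact List.append_cancel_left heq
    subst ev
    have ej : j = j' := by
      have a1 := hv.length_eq; have a2 := hv'.length_eq
      simp at a1 a2; omega
    subst ej
    have ei : i = i' := by omega
    subst ei
    have : u = u' := by
      refine List.map_injective_iff.2 ?_ e
      intro a b hab; simpa using hab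
    subst this
    rfl
  · intro w hw
    rw [mem_FW] at hw
    obtain ⟨hw, u, v, rfl, hPu, hQv, hl⟩ := hw
    obtain ⟨s1, s2, s3⟩ := std_split (List.perm_append_comm.trans hw) hl
    refine ⟨⟨(u.length, v.length), u.map (fun x => x - v.length), v⟩, ?_, ?_⟩
    · simp only [Finset.mem_sigma, Finset.HasAntidiagonal.mem_antidiagonal, Finset.mem_product,
        mem_FW]
      refine ⟨?_, ⟨s3, ?_⟩, s1, hQv⟩
      · have := hw.length_eq; simpa using this
      · refine hP u _ hPu ?_
        intro a ha b hb hab
        have := s2 a ha; have := s2 b hb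
        omega
    · simp only [List.map_map]
      congr 1
      conv_rhs => rw [← List.map_id u]
      refine List.map_congr_left ?_
      intro a ha
      have := s2 a ha
      simp only [Function.comp, id]
      omega

theorem GF_sum {P Q : Wd} (hQ : Inv Q) (hU : UnambSum P Q) :
    GF (SumP P Q) = GF P * GF Q := by
  ext n
  rw [PowerSeries.coeff_mul]
  simp only [GF, PowerSeries.coeff_mk]
  rw [cnt_sum hQ hU]
  push_cast
  rfl

theorem GF_skew {P Q : Wd} (hP : Inv P) (hU : UnambSkew P Q) :
    GF (SkewP P Q) = GF P * GF Q := by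
  ext n
  rw [PowerSeries.coeff_mul]
  simp only [GF, PowerSeries.coeff_mk]
  rw [cnt_skew hP hU]
  push_cast
  rfl

theorem GF_congr {P Q : Wd} (h : ∀ w, P w ↔ Q w) : GF P = GF Q := by
  have : P = Q := funext fun w => propext (h w)
  rw [this]

theorem GF_or {P Q : Wd} (h : ∀ w, P w → Q w → False) :
    GF (fun w => P w ∨ Q w) = GF P + GF Q := by
  classical
  ext n
  simp only [GF, PowerSeries.coeff_mk, map_add, cnt]
  have e : FW (fun w => P w ∨ Q w) n = FW P n ∪ FW Q n := by
    ext w
    simp only [mem_FW, Finset.mem_union]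
    tauto
  rw [e, Finset.card_union_of_disjoint]
  · push_cast; rfl
  · rw [Finset.disjoint_left]
    intro w h1 h2
    exact h w (mem_FW.1 h1).2 (mem_FW.1 h2).2

theorem GF_emp : GF (fun w => w = []) = 1 := by
  classical
  ext n
  simp only [GF, PowerSeries.coeff_mk, cnt, PowerSeries.coeff_one]
  split_ifs with h
  · subst h
    norm_cast
    rw [Finset.card_eq_one]
    refine ⟨[], ?_⟩
    ext w
    rw [mem_FW, Finset.mem_singleton]
    constructor
    · exact fun h => h.2
    · rintro rfl; simp
  · norm_cast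
    refine Finset.card_eq_zero.2 (Finset.eq_empty_of_forall_notMem fun w hw => ?_)
    rw [mem_FW] at hw
    obtain ⟨hw, rfl⟩ := hw
    have := hw.length_eq
    simp at this
    exact h this.symm

theorem GF_one : GF One = (PowerSeries.X : PowerSeries ℤ) := by
  classical
  ext n
  simp only [GF, PowerSeries.coeff_mk, cnt, PowerSeries.coeff_X]
  split_ifs with h
  · subst h
    norm_cast
    rw [Finset.card_eq_one]
    refine ⟨[0], ?_⟩
    ext w
    rw [mem_FW, Finset.mem_singleton]
    constructor
    · rintro ⟨h1, m, rfl⟩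
      have := h1.mem_iff (a := m)
      simp at this
      simp [this]
    · rintro rfl; exact ⟨by simp, 0, rfl⟩
  · norm_cast
    refine Finset.card_eq_zero.2 (Finset.eq_empty_of_forall_notMem fun w hw => ?_)
    rw [mem_FW] at hw
    obtain ⟨hw, m, rfl⟩ := hw
    have := hw.length_eq
    simp at this
    exact h this.symm

theorem GF_ne {P : Wd} (h : P []) : GF P = 1 + GF (Ne P) := by
  rw [← GF_emp, ← GF_or (fun w h1 h2 => h2.2 h1)]
  refine GF_congr fun w => ?_
  constructor
  · intro hw
    by_cases he : w = []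
    · exact Or.inl he
    · exact Or.inr ⟨hw, he⟩
  · rintro (rfl | h1)
    · exact h
    · exact h1.1

theorem GF_and_not {P Q : Wd} : GF P = GF (fun w => P w ∧ Q w) + GF (fun w => P w ∧ ¬ Q w) := by
  rw [← GF_or (fun w h1 h2 => h2.2 h1.2)]
  refine GF_congr fun w => ?_
  by_cases h : Q w <;> simp [h]

/-! ### invariance -/

theorem Lt.map {u v : List ℕ} {g : ℕ → ℕ} (h : Lt u v)
    (hg : ∀ a ∈ u ++ v, ∀ b ∈ u ++ v, a < b → g a < g b) : Lt (u.map g) (v.map g) := by
  intro a ha b hb
  rw [List.mem_map] at ha hb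
  obtain ⟨a, ha, rfl⟩ := ha
  obtain ⟨b, hb, rfl⟩ := hb
  exact hg a (by simp [ha]) b (by simp [hb]) (h a ha b hb)

theorem Inv.sum {P Q : Wd} (hP : Inv P) (hQ : Inv Q) : Inv (SumP P Q) := by
  rintro l g ⟨u, v, rfl, hu, hv, hl⟩ hg
  refine ⟨u.map g, v.map g, by simp, hP u g hu ?_, hQ v g hv ?_, hl.map hg⟩
  · exact fun a ha b hb => hg a (by simp [ha]) b (by simp [hb])
  · exact fun a ha b hb => hg a (by simp [ha]) b (by simp [hb])

theorem Inv.skew {P Q : Wd} (hP : Inv P) (hQ : Inv Q) : Inv (SkewP P Q) := by
  rintro l g ⟨u, v, rfl, hu, hv, hl⟩ hg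
  refine ⟨u.map g, v.map g, by simp, hP u g hu ?_, hQ v g hv ?_, hl.map ?_⟩
  · exact fun a ha b hb => hg a (by simp [ha]) b (by simp [hb])
  · exact fun a ha b hb => hg a (by simp [ha]) b (by simp [hb])
  · intro a ha b hb
    refine hg a ?_ b ?_
    · simp only [List.mem_append] at ha ⊢; exact ha.symm
    · simp only [List.mem_append] at hb ⊢; exact hb.symm

theorem Inv.or {P Q : Wd} (hP : Inv P) (hQ : Inv Q) : Inv (fun w => P w ∨ Q w) := by
  rintro l g (h | h) hg
  · exact Or.inl (hP l g h hg)
  · exact Or.inr (hQ l g h hg)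

theorem Inv.and {P Q : Wd} (hP : Inv P) (hQ : Inv Q) : Inv (fun w => P w ∧ Q w) := by
  rintro l g ⟨h1, h2⟩ hg
  exact ⟨hP l g h1 hg, hQ l g h2 hg⟩

theorem Inv.not {P : Wd} (hP : Inv P) : Inv (fun w => ¬ P w) := by
  intro l g h hg hcon
  apply h
  classical
  let g' : ℕ → ℕ := fun y => if hy : ∃ x ∈ l, g x = y then hy.choose else 0
  have hg' : ∀ x ∈ l, g' (g x) = x := by
    intro x hx
    have hy : ∃ x' ∈ l, g x' = g x := ⟨x, hx, rfl⟩
    have e : g' (g x) = hy.choose := by simp only [g']; rw [dif_pos hy]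
    rw [e]
    have h1 := hy.choose_spec
    rcases lt_trichotomy hy.choose x with h2 | h2 | h2
    · have := hg _ h1.1 x hx h2; omega
    · exact h2
    · have := hg x hx _ h1.1 h2; omega
  have := hP (l.map g) g' hcon (by
    intro a ha b hb hab
    rw [List.mem_map] at ha hb
    obtain ⟨a, ha, rfl⟩ := ha
    obtain ⟨b, hb, rfl⟩ := hb
    rw [hg' a ha, hg' b hb]
    by_contra hcon
    rcases eq_or_lt_of_le (not_lt.1 hcon) with h2 | h2
    · subst h2; omega
    · have := hg b hb a ha h2; omega)
  rw [List.map_map] at this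
  have e : l.map (g' ∘ g) = l := by
    conv_rhs => rw [← List.map_id l]
    exact List.map_congr_left (fun x hx => by simp [hg' x hx])
  rwa [e] at this

theorem Inv.ne {P : Wd} (hP : Inv P) : Inv (Ne P) := by
  rintro l g ⟨h1, h2⟩ hg
  exact ⟨hP l g h1 hg, by simpa using h2⟩

theorem Inv.one : Inv One := by
  rintro l g ⟨m, rfl⟩ hg
  exact ⟨g m, rfl⟩

theorem Inv.two : Inv Two := by
  rintro l g ⟨x, y, rfl, hxy⟩ hg
  exact ⟨g x, g y, rfl, hg x (by simp) y (by simp) hxy⟩

theorem map_ins {b : Bool} {m : ℕ} {v : List ℕ} {g : ℕ → ℕ} :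
    (ins b m v).map g = ins b (g m) (v.map g) := by
  cases b <;> simp [ins]

theorem Cond.map {b : Bool} {m : ℕ} {v : List ℕ} {g : ℕ → ℕ} (h : Cond b m v)
    (hg : ∀ x ∈ ins b m v, ∀ y ∈ ins b m v, x < y → g x < g y) : Cond b (g m) (v.map g) := by
  cases b
  · have : Lt [m] v := h
    have := this.map (g := g) (by
      intro x hx y hy
      refine hg x ?_ y ?_
      · rw [mem_ins]; simpa using hx
      · rw [mem_ins]; simpa using hy)
    exact this
  · have : Lt v [m] := h
    have := this.map (g := g) (by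
      intro x hx y hy
      refine hg x ?_ y ?_
      · rw [mem_ins]; simp at hx; tauto
      · rw [mem_ins]; simp at hy; tauto)
    exact this

theorem Inv.A (b : Bool) : Inv (A b) := by
  intro l g h
  induction h with
  | nil => intro _; exact SepClass.A.nil
  | @step u v m h1 h2 hc hl ih1 ih2 =>
    intro hg
    rw [List.map_append, map_ins]
    have hgv : ∀ x ∈ ins b m v, ∀ y ∈ ins b m v, x < y → g x < g y :=
      fun x hx y hy => hg x (by simp [hx]) y (by simp [hy])
    refine SepClass.A.step (ih1 (fun x hx y hy => hg x (by simp [hx]) y (by simp [hy])))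
      (ih2 (fun x hx y hy => hgv x (by rw [mem_ins]; exact Or.inr hx) y
        (by rw [mem_ins]; exact Or.inr hy))) (hc.map hgv) ?_
    rw [← map_ins]
    exact hl.map hg

theorem Inv.L (b : Bool) : Inv (L b) := by
  intro l g h
  induction h with
  | nil => intro _; exact SepClass.L.nil
  | @sk v m h hc ih =>
    intro hg
    rw [map_ins]
    exact SepClass.L.sk (ih (fun x hx y hy => hg x (by rw [mem_ins]; exact Or.inr hx) y
        (by rw [mem_ins]; exact Or.inr hy))) (hc.map hg)
  | @one u m h hu hl ih =>
    intro hg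
    rw [List.map_append]
    exact SepClass.L.one (ih (fun x hx y hy => hg x (by simp [hx]) y (by simp [hy])))
      (by simpa using hu) (hl.map hg)
  | @two u x y h hu hl hxy ih =>
    intro hg
    rw [List.map_append]
    exact SepClass.L.two (ih (fun x hx y hy => hg x (by simp [hx]) y (by simp [hy])))
      (by simpa using hu) (hl.map hg) (hg x (by simp) y (by simp) hxy)

theorem Inv.B (b : Bool) : Inv (B b) := by
  rintro l g ⟨m, v, rfl, h1, h2⟩ hg
  rw [map_ins]
  exact ⟨_, _, rfl, Inv.A b v g h1 (fun x hx y hy => hg x (by rw [mem_ins]; exact Or.inr hx) y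
        (by rw [mem_ins]; exact Or.inr hy)), h2.map hg⟩

theorem Inv.BL (b : Bool) : Inv (BL b) := by
  rintro l g ⟨m, v, rfl, h1, h2⟩ hg
  rw [map_ins]
  exact ⟨_, _, rfl, Inv.L b v g h1 (fun x hx y hy => hg x (by rw [mem_ins]; exact Or.inr hx) y
        (by rw [mem_ins]; exact Or.inr hy)), h2.map hg⟩

theorem Inv.D (b : Bool) : Inv (D b) := (Inv.A b).ne.sum (Inv.B b)

theorem Inv.E (b : Bool) : Inv (E b) :=
  ((Inv.L b).ne.sum Inv.one).or ((Inv.L b).ne.sum Inv.two)

theorem Inv.Sp {E : Wd} (hE : Inv E) : Inv (Sp E) := by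
  intro l g h
  induction h with
  | nil => intro _; exact SepClass.Sp.nil
  | @one m v h hl ih =>
    intro hg
    refine SepClass.Sp.one (ih (fun x hx y hy => hg x (by simp [hx]) y (by simp [hy]))) ?_
    have := hl.map (g := g) (fun x hx y hy => hg x (by simp at hx ⊢; tauto) y
      (by simp at hy ⊢; tauto))
    simpa using this
  | @big u v hu hv hl ih =>
    intro hg
    rw [List.map_append]
    refine SepClass.Sp.big (hE u g hu (fun x hx y hy => hg x (by simp [hx]) y (by simp [hy])))
      (ih (fun x hx y hy => hg x (by simp [hx]) y (by simp [hy]))) ?_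
    exact hl.map (fun x hx y hy => hg x (by simp at hx ⊢; tauto) y (by simp at hy ⊢; tauto))

theorem Inv.Tp {D S : Wd} (hD : Inv D) (hS : Inv S) : Inv (Tp D S) := by
  intro l g h
  induction h with
  | nil => intro _; exact SepClass.Tp.nil
  | @one m v h hl ih =>
    intro hg
    refine SepClass.Tp.one (ih (fun x hx y hy => hg x (by simp [hx]) y (by simp [hy]))) ?_
    have := hl.map (g := g) (fun x hx y hy => hg x (by simp at hx ⊢; tauto) y
      (by simp at hy ⊢; tauto))
    simpa using this
  | @big u v hu hv hl =>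
    intro hg
    rw [List.map_append]
    refine SepClass.Tp.big (hD u g hu (fun x hx y hy => hg x (by simp [hx]) y (by simp [hy])))
      (hS v g hv (fun x hx y hy => hg x (by simp [hx]) y (by simp [hy]))) ?_
    exact hl.map (fun x hx y hy => hg x (by simp at hx ⊢; tauto) y (by simp at hy ⊢; tauto))

theorem Inv.Gp {D S : Wd} (hD : Inv D) (hS : Inv S) : Inv (Gp D S) :=
  (Inv.one.skew (Inv.Tp hD hS)).or (hD.skew hS.ne)

theorem Inv.Xp {G : Wd} (hG : Inv G) : Inv (Xp G) := by
  intro l g h
  induction h with
  | nil => intro _; exact SepClass.Xp.nil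
  | @cons u v hu hv hl ih =>
    intro hg
    rw [List.map_append]
    exact SepClass.Xp.cons (hG u g hu (fun x hx y hy => hg x (by simp [hx]) y (by simp [hy])))
      (ih (fun x hx y hy => hg x (by simp [hx]) y (by simp [hy]))) (hl.map hg)

theorem Inv.S (b : Bool) : Inv (S b) := Inv.Sp (Inv.E b)
theorem Inv.T (b : Bool) : Inv (T b) := Inv.Tp (Inv.D b) (Inv.S b)
theorem Inv.G (b : Bool) : Inv (G b) := Inv.Gp (Inv.D b) (Inv.S b)
theorem Inv.X (b : Bool) : Inv (X b) := Inv.Xp (Inv.G b)
theorem Inv.C : Inv C := (Inv.X true).sum (Inv.X false)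

end Pool.Agent.SepClass
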