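import Pool.Agent.SepClass.Struct

/-!
# The intersection of the two families of sum-indecomposables, and the final count
-/

namespace Pool.Agent.SepClass

theorem and_sum_right {P Q P' Q' : Wd} (hQ : ∀ w, Q w → SumIndec w) (hQ' : ∀ w, Q' w → SumIndec w)
    (w : List ℕ) :
    (SumP P Q w ∧ SumP P' Q' w) ↔ SumP (fun w => P w ∧ P' w) (fun w => Q w ∧ Q' w) w := by
  constructor
  · rintro ⟨⟨u, v, rfl, hu, hv, hl⟩, ⟨u', v', he, hu', hv', hl'⟩⟩
    have := last_sum_unique he (hQ _ hv) (hQ' _ hv') hl hl'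
    subst this
    have := List.append_cancel_left he
    subst this
    exact ⟨u, v, rfl, ⟨hu, hu'⟩, ⟨hv, hv'⟩, hl⟩
  · rintro ⟨u, v, rfl, hu, hv, hl⟩
    exact ⟨⟨u, v, rfl, hu.1, hv.1, hl⟩, ⟨u, v, rfl, hu.2, hv.2, hl⟩⟩

theorem and_skew_left {P Q P' Q' : Wd} (hP : ∀ w, P w → SkewIndec w)
    (hP' : ∀ w, P' w → SkewIndec w) (w : List ℕ) :
    (SkewP P Q w ∧ SkewP P' Q' w) ↔ SkewP (fun w => P w ∧ P' w) (fun w => Q w ∧ Q' w) w := by
  constructor
  · rintro ⟨⟨u, v, rfl, hu, hv, hl⟩, ⟨u', v', he, hu', hv', hl'⟩⟩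
    have := first_skew_unique he (hP _ hu) (hP' _ hu') hl hl'
    subst this
    have := List.append_cancel_left he
    subst this
    exact ⟨u, v, rfl, ⟨hu, hu'⟩, ⟨hv, hv'⟩, hl⟩
  · rintro ⟨u, v, rfl, hu, hv, hl⟩
    exact ⟨⟨u, v, rfl, hu.1, hv.1, hl⟩, ⟨u, v, rfl, hu.2, hv.2, hl⟩⟩

theorem SumP.congr {P Q P' Q' : Wd} (hP : ∀ w, P w ↔ P' w) (hQ : ∀ w, Q w ↔ Q' w) (w : List ℕ) :
    SumP P Q w ↔ SumP P' Q' w := by
  have e1 : P = P' := funext fun w => propext (hP w)
  have e2 : Q = Q' := funext fun w => propext (hQ w)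
  rw [e1, e2]

theorem SkewP.congr {P Q P' Q' : Wd} (hP : ∀ w, P w ↔ P' w) (hQ : ∀ w, Q w ↔ Q' w)
    (w : List ℕ) : SkewP P Q w ↔ SkewP P' Q' w := by
  have e1 : P = P' := funext fun w => propext (hP w)
  have e2 : Q = Q' := funext fun w => propext (hQ w)
  rw [e1, e2]

/-! ### decreasing words -/

inductive Dc : Wd
  | nil : Dc []
  | cons {m : ℕ} {v : List ℕ} : Dc v → Lt v [m] → Dc (m :: v)

theorem Dc.hered : Hered Dc := by
  intro w w' hw
  induction hw generalizing w' with
  | nil => intro h; rw [List.sublist_nil.1 h]; exact Dc.nil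
  | @cons m v h hl ih =>
    intro h'
    rcases List.sublist_cons_iff.1 h' with h3 | ⟨r, rfl, h3⟩
    · exact ih _ h3
    · exact Dc.cons (ih _ h3) (hl.mono h3.subset (fun _ h => h))

theorem Dc.snoc {w : List ℕ} (h : Dc w) (hne : w ≠ []) :
    ∃ v m, w = v ++ [m] ∧ Dc v ∧ Lt [m] v := by
  induction h with
  | nil => exact absurd rfl hne
  | @cons m v h hl ih =>
    by_cases hv : v = []
    · subst hv
      exact ⟨[], m, rfl, Dc.nil, Lt.nil_right _⟩
    · obtain ⟨v', m', rfl, h1, h2⟩ := ih hv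
      rw [lt_append_left] at hl
      refine ⟨m :: v', m', rfl, Dc.cons h1 hl.1, ?_⟩
      rw [lt_cons_right]
      exact ⟨hl.2, h2⟩

theorem Dc.L : ∀ (n : ℕ) (b : Bool) (w : List ℕ), w.length = n → Dc w → L b w := by
  intro n
  induction n with
  | zero =>
    intro b w hn h
    rw [List.length_eq_zero_iff.1 hn]; exact SepClass.L.nil
  | succ n ih =>
    intro b w hn h
    cases b
    · obtain ⟨v, m, rfl, h1, h2⟩ := h.snoc (by rintro rfl; simp at hn)
      exact SepClass.L.sk (b := false) (ih false v (by simpa using hn) h1) h2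
    · cases h with
      | nil => exact SepClass.L.nil
      | @cons m v h hl => exact SepClass.L.sk (b := true) (ih true v (by simpa using hn) h) hl

theorem Dc.BL {b : Bool} {w : List ℕ} (h : Dc w) (hne : w ≠ []) : BL b w := by
  cases b
  · obtain ⟨v, m, rfl, h1, h2⟩ := h.snoc hne
    exact ⟨m, v, rfl, Dc.L _ false v rfl h1, h2⟩
  · cases h with
    | nil => exact absurd rfl hne
    | @cons m v h hl => exact ⟨m, v, rfl, Dc.L _ true v rfl h, hl⟩

theorem Dc_of_B : ∀ (n : ℕ) (w : List ℕ), w.length = n → B true w → B false w → Dc w := by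
  intro n
  induction n using Nat.strong_induction_on with
  | _ n ih =>
    rintro w hn ⟨m, v, rfl, h1, h2⟩ ⟨m', v', he, h1', h2'⟩
    have he : m :: v = v' ++ [m'] := he
    have h2 : Lt v [m] := h2
    have h2' : Lt [m'] v' := h2'
    show Dc (m :: v)
    by_cases hv : v = []
    · subst hv; exact Dc.cons Dc.nil (Lt.nil_left _)
    · rcases v' with _ | ⟨a, v''⟩
      · exfalso
        simp at he
        exact hv he.2
      · simp only [List.cons_append, List.cons.injEq] at he
        obtain ⟨rfl, rfl⟩ := he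
        refine Dc.cons ?_ h2
        have hA : A false v'' := A.hered false _ _ h1' (List.sublist_cons_self _ _)
        have hl : Lt [m'] v'' := h2'.mono (fun _ h => h) (by simp)
        have hBf : B false (v'' ++ [m']) := ⟨m', v'', rfl, hA, hl⟩
        have hBt : B true (v'' ++ [m']) := by
          rcases A_cases h1 with h3 | h3 | ⟨s, t, h3, h4, h5, h6⟩
          · exact absurd h3 hv
          · exact h3
          · exfalso
            rcases hBf.indec.2 s t h3 h6 with h7 | h7
            · exact h4.2 h7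
            · exact h5.indec.1 h7
        refine ih (v'' ++ [m']).length ?_ _ rfl hBt hBf
        rw [← hn]
        simp [ins]

theorem B_and (w : List ℕ) : (B true w ∧ B false w) ↔ Ne Dc w := by
  constructor
  · rintro ⟨h1, h2⟩
    exact ⟨Dc_of_B _ w rfl h1 h2, h1.indec.1⟩
  · rintro ⟨h1, h2⟩
    exact ⟨(Dc.BL h1 h2).B, (Dc.BL h1 h2).B⟩

theorem BL_and (w : List ℕ) : (BL true w ∧ BL false w) ↔ Ne Dc w := by
  constructor
  · rintro ⟨h1, h2⟩
    exact ⟨Dc_of_B _ w rfl h1.B h2.B, h1.indec.1⟩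
  · rintro ⟨h1, h2⟩
    exact ⟨Dc.BL h1 h2, Dc.BL h1 h2⟩

theorem NeDc.indec {w : List ℕ} (h : Ne Dc w) : SumIndec w := ((B_and w).2 h).1.indec

def A12 : Wd := fun w => A true w ∧ A false w
def D12 : Wd := fun w => D true w ∧ D false w
def L12 : Wd := fun w => L true w ∧ L false w
def E12 : Wd := fun w => E true w ∧ E false w
def S12 : Wd := fun w => S true w ∧ S false w

theorem Inv.Dc : Inv Dc := by
  intro l g h
  induction h with
  | nil => intro _; exact SepClass.Dc.nil
  | @cons m v h hl ih =>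
    intro hg
    refine SepClass.Dc.cons (ih (fun x hx y hy => hg x (by simp [hx]) y (by simp [hy]))) ?_
    have := hl.map (g := g) (fun x hx y hy => hg x (by simp at hx ⊢; tauto) y
      (by simp at hy ⊢; tauto))
    simpa using this

theorem D12_iff (w : List ℕ) : D12 w ↔ SumP (Ne A12) (Ne Dc) w := by
  unfold D12 D
  rw [and_sum_right (fun w h => h.indec) (fun w h => h.indec)]
  refine SumP.congr (fun w => ?_) B_and w
  constructor
  · rintro ⟨h1, h2⟩; exact ⟨⟨h1.1, h2.1⟩, h1.2⟩
  · rintro ⟨h1, h2⟩; exact ⟨⟨h1.1, h2⟩, ⟨h1.2, h2⟩⟩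

theorem A12_iff (w : List ℕ) : A12 w ↔ w = [] ∨ SumP A12 (Ne Dc) w := by
  have key := and_sum_right (P := A true) (Q := B true) (P' := A false) (Q' := B false)
    (fun w h => h.indec) (fun w h => h.indec) w
  have e := SumP.congr (P := fun w => A true w ∧ A false w) (P' := A12) (fun w => Iff.rfl) B_and w
  rw [← e, ← key]
  constructor
  · rintro ⟨h1, h2⟩
    rcases A_iff.1 h1 with h3 | h3
    · exact Or.inl h3
    · rcases A_iff.1 h2 with h4 | h4
      · exact Or.inl h4
      · exact Or.inr ⟨h3, h4⟩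
  · rintro (h | h)
    · exact ⟨A_iff.2 (Or.inl h), A_iff.2 (Or.inl h)⟩
    · exact ⟨A_iff.2 (Or.inr h.1), A_iff.2 (Or.inr h.2)⟩

theorem E12_iff (w : List ℕ) : E12 w ↔ (SumP (Ne L12) One w ∨ SumP (Ne L12) Two w) := by
  have hne : ∀ w, (Ne (L true) w ∧ Ne (L false) w) ↔ Ne L12 w := by
    intro w
    constructor
    · rintro ⟨h1, h2⟩; exact ⟨⟨h1.1, h2.1⟩, h1.2⟩
    · rintro ⟨h1, h2⟩; exact ⟨⟨h1.1, h2⟩, ⟨h1.2, h2⟩⟩
  have k1 := and_sum_right (P := Ne (L true)) (Q := One) (P' := Ne (L false)) (Q' := One)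
    (fun w h => h.sumIndec) (fun w h => h.sumIndec) w
  have k2 := and_sum_right (P := Ne (L true)) (Q := Two) (P' := Ne (L false)) (Q' := Two)
    (fun w h => h.sumIndec) (fun w h => h.sumIndec) w
  rw [SumP.congr hne (fun w => and_self_iff) w] at k1 k2
  rw [← k1, ← k2]
  constructor
  · rintro ⟨h1 | h1, h2 | h2⟩
    · exact Or.inl ⟨h1, h2⟩
    · exact (one_two_false h1 h2).elim
    · exact (one_two_false h2 h1).elim
    · exact Or.inr ⟨h1, h2⟩
  · rintro (h | h)
    · exact ⟨Or.inl h.1, Or.inl h.2⟩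
    · exact ⟨Or.inr h.1, Or.inr h.2⟩

theorem BL_E_false {b b' : Bool} {w : List ℕ} (h1 : BL b w) (h2 : E b' w) : False := by
  rcases h2 with h2 | h2
  · exact indec_sum_false h1.indec (fun w h => h.sumIndec) h2
  · exact indec_sum_false h1.indec (fun w h => h.sumIndec) h2

theorem L12_iff (w : List ℕ) : L12 w ↔ w = [] ∨ (Ne Dc w ∨ E12 w) := by
  rw [← BL_and]
  constructor
  · rintro ⟨h1, h2⟩
    rcases L_iff.1 h1 with h3 | h3 | h3
    · exact Or.inl h3
    · rcases L_iff.1 h2 with h4 | h4 | h4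
      · exact Or.inl h4
      · exact Or.inr (Or.inl ⟨h3, h4⟩)
      · exact (BL_E_false h3 h4).elim
    · rcases L_iff.1 h2 with h4 | h4 | h4
      · exact Or.inl h4
      · exact (BL_E_false h4 h3).elim
      · exact Or.inr (Or.inr ⟨h3, h4⟩)
  · rintro (h | h | h)
    · exact ⟨L_iff.2 (Or.inl h), L_iff.2 (Or.inl h)⟩
    · exact ⟨L_iff.2 (Or.inr (Or.inl h.1)), L_iff.2 (Or.inr (Or.inl h.2))⟩
    · exact ⟨L_iff.2 (Or.inr (Or.inr h.1)), L_iff.2 (Or.inr (Or.inr h.2))⟩

theorem S12_iff (w : List ℕ) : S12 w ↔ Sp E12 w := by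
  constructor
  · rintro ⟨h1, h2⟩
    induction h1 with
    | nil => exact Sp.nil
    | @one m v h hl ih =>
      generalize hw : m :: v = w' at h2
      cases h2 with
      | nil => simp at hw
      | @one m' v' h' hl' =>
        simp only [List.cons.injEq] at hw
        obtain ⟨rfl, rfl⟩ := hw
        exact Sp.one (ih h') hl
      | @big u' v' hu' hv' hl' => exact (one_big_false (Good.E false) hw hl hu').elim
    | @big u v hu hv hl ih =>
      generalize hw : u ++ v = w' at h2
      cases h2 with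
      | nil => exact absurd (List.append_eq_nil_iff.1 hw).1 (Good.E true _ hu).1.1
      | @one m' v' h' hl' => exact (one_big_false (Good.E true) hw.symm hl' hu).elim
      | @big u' v' hu' hv' hl' =>
        have := first_skew_unique hw (Good.E true _ hu).1 (Good.E false _ hu').1 hl hl'
        subst this
        have := List.append_cancel_left hw
        subst this
        exact Sp.big ⟨hu, hu'⟩ (ih hv') hl
  · intro h
    induction h with
    | nil => exact ⟨Sp.nil, Sp.nil⟩
    | one h hl ih => exact ⟨Sp.one ih.1 hl, Sp.one ih.2 hl⟩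
    | big hu hv hl ih => exact ⟨Sp.big hu.1 ih.1 hl, Sp.big hu.2 ih.2 hl⟩

theorem T12_iff (w : List ℕ) : (T true w ∧ T false w) ↔ Tp D12 S12 w := by
  constructor
  · rintro ⟨h1, h2⟩
    induction h1 with
    | nil => exact Tp.nil
    | @one m v h hl ih =>
      generalize hw : m :: v = w' at h2
      cases h2 with
      | nil => simp at hw
      | @one m' v' h' hl' =>
        simp only [List.cons.injEq] at hw
        obtain ⟨rfl, rfl⟩ := hw
        exact Tp.one (ih h') hl
      | @big u' v' hu' hv' hl' => exact (one_big_false (Good.D false) hw hl hu').elim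
    | @big u v hu hv hl =>
      generalize hw : u ++ v = w' at h2
      cases h2 with
      | nil => exact absurd (List.append_eq_nil_iff.1 hw).1 (Good.D true _ hu).1.1
      | @one m' v' h' hl' => exact (one_big_false (Good.D true) hw.symm hl' hu).elim
      | @big u' v' hu' hv' hl' =>
        have := first_skew_unique hw (Good.D true _ hu).1 (Good.D false _ hu').1 hl hl'
        subst this
        have := List.append_cancel_left hw
        subst this
        exact Tp.big ⟨hu, hu'⟩ ⟨hv, hv'⟩ hl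
  · intro h
    induction h with
    | nil => exact ⟨Tp.nil, Tp.nil⟩
    | one h hl ih => exact ⟨Tp.one ih.1 hl, Tp.one ih.2 hl⟩
    | big hu hv hl => exact ⟨Tp.big hu.1 hv.1 hl, Tp.big hu.2 hv.2 hl⟩

theorem G12_iff (w : List ℕ) : (G false w ∧ G true w) ↔ Gp D12 S12 w := by
  have k1 := and_skew_left (P := One) (Q := T true) (P' := One) (Q' := T false)
    (fun w h => h.skewIndec) (fun w h => h.skewIndec) w
  have k2 := and_skew_left (P := D true) (Q := Ne (S true)) (P' := D false) (Q' := Ne (S false))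
    (fun w h => (Good.D true w h).1) (fun w h => (Good.D false w h).1) w
  have hne : ∀ w, (Ne (S true) w ∧ Ne (S false) w) ↔ Ne S12 w := by
    intro w
    constructor
    · rintro ⟨h1, h2⟩; exact ⟨⟨h1.1, h2.1⟩, h1.2⟩
    · rintro ⟨h1, h2⟩; exact ⟨⟨h1.1, h2⟩, ⟨h1.2, h2⟩⟩
  rw [SkewP.congr (fun w => and_self_iff) T12_iff w] at k1
  have e := SkewP.congr (P := fun w => D true w ∧ D false w) (P' := D12) (fun w => Iff.rfl) hne w
  unfold Gp
  rw [← k1, ← e, ← k2]
  have f1 : SkewP One (T true) w → SkewP (D false) (Ne (S false)) w → False := by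
    rintro ⟨_, v, rfl, ⟨m, rfl⟩, _, hl⟩ ⟨u', v', h, hu, _, _⟩
    exact one_big_false (Good.D false) h hl hu
  have f2 : SkewP One (T false) w → SkewP (D true) (Ne (S true)) w → False := by
    rintro ⟨_, v, rfl, ⟨m, rfl⟩, _, hl⟩ ⟨u', v', h, hu, _, _⟩
    exact one_big_false (Good.D true) h hl hu
  constructor
  · rintro ⟨h1 | h1, h2 | h2⟩
    · exact Or.inl ⟨h2, h1⟩
    · exact (f2 h1 h2).elim
    · exact (f1 h2 h1).elim
    · exact Or.inr ⟨h2, h1⟩
  · rintro (h | h)
    · exact ⟨Or.inl h.2, Or.inl h.1⟩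
    · exact ⟨Or.inr h.2, Or.inr h.1⟩

/-! ### generating functions of the intersections -/

theorem GF_Dc : GF (Ne Dc) = PowerSeries.X * (1 + GF (Ne Dc)) := by
  rw [← GF_ne (P := Dc) Dc.nil, ← GF_one,
    ← GF_skew Inv.one (UnambSkew.left fun w h => h.skewIndec)]
  refine GF_congr fun w => ?_
  constructor
  · rintro ⟨h1, h2⟩
    cases h1 with
    | nil => exact absurd rfl h2
    | @cons m v h hl => exact ⟨[m], v, rfl, ⟨m, rfl⟩, h, hl⟩
  · rintro ⟨_, v, rfl, ⟨m, rfl⟩, h, hl⟩
    exact ⟨Dc.cons h hl, by simp⟩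

theorem GF_A12 : GF A12 = 1 + GF A12 * GF (Ne Dc) := by
  rw [← GF_sum Inv.Dc.ne (UnambSum.right fun w h => NeDc.indec h), ← GF_emp, ← GF_or]
  · exact GF_congr A12_iff
  · rintro w rfl ⟨u, v, h, _, hv, _⟩
    exact hv.2 (List.append_eq_nil_iff.1 h.symm).2

theorem GF_D12 : GF D12 = (GF A12 - 1) * GF (Ne Dc) := by
  rw [GF_congr D12_iff, GF_sum Inv.Dc.ne (UnambSum.right fun w h => NeDc.indec h),
    GF_ne (P := A12) ⟨A.nil, A.nil⟩]
  ring

theorem GF_E12 : GF E12 = (GF L12 - 1) * (PowerSeries.X + PowerSeries.X * PowerSeries.X) := by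
  rw [GF_congr E12_iff, GF_sumOneTwo, GF_ne (P := L12) ⟨L.nil, L.nil⟩]
  ring

theorem GF_L12 : GF L12 = 1 + GF (Ne Dc) + GF E12 := by
  rw [add_assoc, ← GF_or (P := Ne Dc) (Q := E12), ← GF_emp, ← GF_or]
  · exact GF_congr L12_iff
  · rintro w rfl (h | h)
    · exact h.2 rfl
    · exact (Good.E true _ h.1).1.1 rfl
  · intro w h1 h2
    exact BL_E_false ((BL_and w).2 h1).1 h2.1

theorem Good.E12 : Good E12 := (Good.E true).and
theorem Good.D12 : Good D12 := (Good.D true).and
theorem Inv.E12 : Inv E12 := (Inv.E true).and (Inv.E false)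
theorem Inv.D12 : Inv D12 := (Inv.D true).and (Inv.D false)

theorem GF_S12 : GF S12 = 1 + PowerSeries.X * GF S12 + GF E12 * GF S12 := by
  rw [GF_congr S12_iff]
  exact GF_Sp Good.E12 Inv.E12

theorem GF_G12 :
    (1 - PowerSeries.X) * (1 - 2 * PowerSeries.X) *
        (1 - 3 * PowerSeries.X + PowerSeries.X ^ 2 - PowerSeries.X ^ 4) *
        (1 - GF (fun w => G false w ∧ G true w)) =
      (1 - 2 * PowerSeries.X) ^ 2 *
          (1 - 3 * PowerSeries.X + PowerSeries.X ^ 2 - PowerSeries.X ^ 4) -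
        PowerSeries.X ^ 3 * (2 - 2 * PowerSeries.X + PowerSeries.X ^ 3) := by
  rw [GF_congr G12_iff]
  exact alg_inter _ _ _ _ _ _ _ _ _ GF_Dc GF_A12 GF_D12 GF_L12 GF_E12 GF_S12
    (GF_Tp (S := S12) Good.D12 Inv.D12) (GF_Gp (S := S12) Good.D12 Inv.D12 ⟨Sp.nil, Sp.nil⟩)
    one_sub_X_ne

/-! ### unique decomposition of the members of `C` -/

/-- members of `X false` whose first component is not in `G true` -/
def V : Wd := fun w => w = [] ∨ SumP (fun w => G false w ∧ ¬ G true w) (X false) w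

theorem V.X {w : List ℕ} (h : V w) : X false w := by
  rcases h with rfl | ⟨u, v, rfl, hu, hv, hl⟩
  · exact Xp.nil
  · exact Xp.cons hu.1 hv hl

theorem C_iff (w : List ℕ) : C w ↔ SumP (X true) V w := by
  constructor
  · rintro ⟨u, v, rfl, hu, hv, hl⟩
    induction hv generalizing u with
    | nil => exact ⟨u, [], rfl, hu, Or.inl rfl, Lt.nil_right _⟩
    | @cons g v hg hv hgv ih =>
      by_cases hg' : G true g
      · rw [lt_append_right] at hl
        rw [← List.append_assoc]
        refine ih (u ++ g) (Xp.sum hu (Xp.of hg') hl.1) ?_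
        rw [lt_append_left]
        exact ⟨hl.2, hgv⟩
      · exact ⟨u, g ++ v, rfl, hu, Or.inr ⟨g, v, rfl, ⟨hg, hg'⟩, hv, hgv⟩, hl⟩
  · rintro ⟨u, v, rfl, hu, hv, hl⟩
    exact ⟨u, v, rfl, hu, hv.X, hl⟩

/-- cancellation in the free monoid -/
theorem Xp.cancel {G : Wd} (hG : ∀ w, G w → SumIndec w) {u t : List ℕ} (hu : Xp G u) :
    Xp G (u ++ t) → Lt u t → Xp G t := by
  induction hu with
  | nil => intro h _; simpa using h
  | @cons g u hg hu hl ih =>
    intro h hlt
    rw [List.append_assoc] at h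
    rw [lt_append_left] at hlt
    generalize hw : g ++ (u ++ t) = w at h
    cases h with
    | nil => exact absurd (List.append_eq_nil_iff.1 hw).1 (hG _ hg).1
    | @cons g' v' hg' hv' hl' =>
      have hl2 : Lt g (u ++ t) := by rw [lt_append_right]; exact ⟨hl, hlt.1⟩
      have := first_sum_unique hw (hG _ hg) (hG _ hg') hl2 hl'
      subst this
      have := List.append_cancel_left hw
      subst this
      exact ih hv' hlt.2

theorem V_no_initial {t v' : List ℕ} (hV : V (t ++ v')) (ht : X true t) (hne : t ≠ [])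
    (hl : Lt t v') : False := by
  cases ht with
  | nil => exact hne rfl
  | @cons g t' hg ht' hgt =>
    rcases hV with h | ⟨u, v, h, hu, hv, huv⟩
    · exact G.indec hg |>.1 (List.append_eq_nil_iff.1 (List.append_eq_nil_iff.1 h).1).1
    · rw [List.append_assoc] at h
      rw [lt_append_left] at hl
      have hl2 : Lt g (t' ++ v') := by rw [lt_append_right]; exact ⟨hgt, hl.1⟩
      have := first_sum_unique h (G.indec hg) (G.indec hu.1) hl2 huv
      subst this
      exact hu.2 hg

theorem unamb_C : UnambSum (X true) V := by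
  intro u v u' v' h hu hv hl hu' hv' hl'
  rcases List.append_eq_append_iff.1 h with ⟨as, h1, h2⟩ | ⟨bs, h1, h2⟩
  · by_cases ha : as = []
    · rw [h1, ha]; simp
    · exfalso
      subst h1; subst h2
      rw [lt_append_right] at hl
      rw [lt_append_left] at hl'
      exact V_no_initial hv (Xp.cancel (fun w h => G.indec h) hu hu' hl.1) ha hl'.2
  · by_cases ha : bs = []
    · rw [h1, ha]; simp
    · exfalso
      subst h1; subst h2
      rw [lt_append_right] at hl'
      rw [lt_append_left] at hl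
      exact V_no_initial hv' (Xp.cancel (fun w h => G.indec h) hu' hu hl'.1) ha hl.2

theorem Inv.V : Inv V := by
  have h : Inv (SumP (fun w => SepClass.G false w ∧ ¬ SepClass.G true w) (SepClass.X false)) :=
    ((Inv.G false).and (Inv.G true).not).sum (Inv.X false)
  rintro l g (rfl | h') hg
  · exact Or.inl rfl
  · exact Or.inr (h l g h' hg)

theorem GF_V : GF V = 1 + (GF (G false) - GF (fun w => G false w ∧ G true w)) *
    GF (X false) := by
  have h1 : GF (fun w => G false w ∧ ¬ G true w) =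
      GF (G false) - GF (fun w => G false w ∧ G true w) := by
    rw [GF_and_not (P := G false) (Q := G true)]; ring
  rw [← h1, ← GF_sum (Inv.X false) (UnambSum.left fun w h => G.indec h.1), ← GF_emp, ← GF_or]
  · rfl
  · rintro w rfl ⟨u, v, h, hu, _, _⟩
    exact (G.indec hu.1).1 (List.append_eq_nil_iff.1 h.symm).1

theorem GF_C : GF C = GF (X true) * GF V := by
  rw [GF_congr C_iff, GF_sum Inv.V unamb_C]

/-- the generating function of the class is rational -/
theorem GF_C_rational :
    ((1 - PowerSeries.X) * (1 - 2 * PowerSeries.X) ^ 3 * (1 - 4 * PowerSeries.X) *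
        (1 - 3 * PowerSeries.X + PowerSeries.X ^ 2 - PowerSeries.X ^ 4)) * GF C =
      (1 - 3 * PowerSeries.X) ^ 2 *
        ((1 - 2 * PowerSeries.X) ^ 2 *
            (1 - 3 * PowerSeries.X + PowerSeries.X ^ 2 - PowerSeries.X ^ 4) -
          PowerSeries.X ^ 3 * (2 - 2 * PowerSeries.X + PowerSeries.X ^ 3)) := by
  refine alg_final (c := GF (A true)) (c' := GF (A false)) (f1 := GF (X true))
    (f2 := GF (X false)) (g2 := GF (G false)) (v := GF V) PowerSeries.X
    (hc := ?_) (hcc := GF_A_eq) (K1 := GF_X_key true) (K2 := GF_X_key false)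
    (F2 := GF_Xp (G := G false) (fun w h => G.indec h) (Inv.G false)) (V := GF_V)
    (hF := GF_C) (hg := GF_G12)
  conv_lhs => rw [GF_A true, GF_B true]

end Pool.Agent.SepClass
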