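import Pool.Agent.SepClass.Count
import Pool.Agent.SepClass.Algebra

/-!
# Unique decomposition and the equations for the generating functions
-/

namespace Pool.Agent.SepClass

def SumIndec (w : List ℕ) : Prop := w ≠ [] ∧ ∀ s t, w = s ++ t → Lt s t → s = [] ∨ t = []
def SkewIndec (w : List ℕ) : Prop := w ≠ [] ∧ ∀ s t, w = s ++ t → Lt t s → s = [] ∨ t = []

theorem first_sum_unique {u v u' v' : List ℕ} (h : u ++ v = u' ++ v') (hu : SumIndec u)
    (hu' : SumIndec u') (hl : Lt u v) (hl' : Lt u' v') : u = u' := by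
  rcases List.append_eq_append_iff.1 h with ⟨as, h1, h2⟩ | ⟨bs, h1, h2⟩
  · rcases hu'.2 u as h1 (hl.mono (fun _ h => h) (by rw [h2]; simp)) with h3 | h3
    · exact absurd h3 hu.1
    · rw [h1, h3]; simp
  · rcases hu.2 u' bs h1 (hl'.mono (fun _ h => h) (by rw [h2]; simp)) with h3 | h3
    · exact absurd h3 hu'.1
    · rw [h1, h3]; simp

theorem first_skew_unique {u v u' v' : List ℕ} (h : u ++ v = u' ++ v') (hu : SkewIndec u)
    (hu' : SkewIndec u') (hl : Lt v u) (hl' : Lt v' u') : u = u' := by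
  rcases List.append_eq_append_iff.1 h with ⟨as, h1, h2⟩ | ⟨bs, h1, h2⟩
  · rcases hu'.2 u as h1 (hl.mono (by rw [h2]; simp) (fun _ h => h)) with h3 | h3
    · exact absurd h3 hu.1
    · rw [h1, h3]; simp
  · rcases hu.2 u' bs h1 (hl'.mono (by rw [h2]; simp) (fun _ h => h)) with h3 | h3
    · exact absurd h3 hu'.1
    · rw [h1, h3]; simp

theorem last_sum_unique {u v u' v' : List ℕ} (h : u ++ v = u' ++ v') (hv : SumIndec v)
    (hv' : SumIndec v') (hl : Lt u v) (hl' : Lt u' v') : u = u' := by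
  rcases List.append_eq_append_iff.1 h with ⟨as, h1, h2⟩ | ⟨bs, h1, h2⟩
  · rcases hv.2 as v' h2 (hl'.mono (by rw [h1]; simp) (fun _ h => h)) with h3 | h3
    · rw [h1, h3]; simp
    · exact absurd h3 hv'.1
  · rcases hv'.2 bs v h2 (hl.mono (by rw [h1]; simp) (fun _ h => h)) with h3 | h3
    · rw [h1, h3]; simp
    · exact absurd h3 hv.1

theorem last_skew_unique {u v u' v' : List ℕ} (h : u ++ v = u' ++ v') (hv : SkewIndec v)
    (hv' : SkewIndec v') (hl : Lt v u) (hl' : Lt v' u') : u = u' := by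
  rcases List.append_eq_append_iff.1 h with ⟨as, h1, h2⟩ | ⟨bs, h1, h2⟩
  · rcases hv.2 as v' h2 (hl'.mono (fun _ h => h) (by rw [h1]; simp)) with h3 | h3
    · rw [h1, h3]; simp
    · exact absurd h3 hv'.1
  · rcases hv'.2 bs v h2 (hl.mono (fun _ h => h) (by rw [h1]; simp)) with h3 | h3
    · rw [h1, h3]; simp
    · exact absurd h3 hv.1

/-- a word cannot be both a nontrivial sum and a nontrivial skew sum -/
theorem sum_skew_false {s t s' t' : List ℕ} (h : s ++ t = s' ++ t') (hs : s ≠ []) (ht : t ≠ [])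
    (hs' : s' ≠ []) (ht' : t' ≠ []) (hl : Lt s t) (hl' : Lt t' s') : False := by
  obtain ⟨a, s1, rfl⟩ := List.exists_cons_of_ne_nil hs
  obtain ⟨a', s1', rfl⟩ := List.exists_cons_of_ne_nil hs'
  have e1 : a = a' := by simpa using (List.cons.inj h).1
  subst e1
  rcases List.eq_nil_or_concat t with h0 | ⟨t1, z, rfl⟩
  · exact ht h0
  rcases List.eq_nil_or_concat t' with h0 | ⟨t1', z', rfl⟩
  · exact ht' h0
  have e2 : z = z' := by
    have h5 : ((a :: s1) ++ t1) ++ [z] = ((a :: s1') ++ t1') ++ [z'] := by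
      simpa using h
    have := (List.append_inj' h5 rfl).2
    simpa using this
  subst e2
  have h1 := hl a (by simp) z (by simp)
  have h2 := hl' z (by simp) a (by simp)
  omega

theorem SkewIndec.of_sum {s t : List ℕ} (hs : s ≠ []) (ht : t ≠ []) (hl : Lt s t) :
    SkewIndec (s ++ t) := by
  refine ⟨by simp [hs], fun s' t' h hl' => ?_⟩
  by_contra hcon
  rw [not_or] at hcon
  exact sum_skew_false h hs ht hcon.1 hcon.2 hl hl'

theorem SumIndec.of_skew {s t : List ℕ} (hs : s ≠ []) (ht : t ≠ []) (hl : Lt t s) :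
    SumIndec (s ++ t) := by
  refine ⟨by simp [hs], fun s' t' h hl' => ?_⟩
  by_contra hcon
  rw [not_or] at hcon
  exact sum_skew_false h.symm hcon.1 hcon.2 hs ht hl' hl

theorem SumIndec.single (m : ℕ) : SumIndec [m] := by
  refine ⟨by simp, fun s t h _ => ?_⟩
  have := congrArg List.length h
  simp at this
  rcases s with _ | ⟨a, s⟩
  · exact Or.inl rfl
  · right
    simp at this
    exact List.length_eq_zero_iff.1 (by omega)

theorem SkewIndec.single (m : ℕ) : SkewIndec [m] := by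
  refine ⟨by simp, fun s t h _ => ?_⟩
  have := congrArg List.length h
  simp at this
  rcases s with _ | ⟨a, s⟩
  · exact Or.inl rfl
  · right
    simp at this
    exact List.length_eq_zero_iff.1 (by omega)

theorem SumIndec.ins {b : Bool} {m : ℕ} {v : List ℕ} (h : Cond b m v) : SumIndec (ins b m v) := by
  by_cases hv : v = []
  · subst hv
    cases b
    · exact SumIndec.single m
    · exact SumIndec.single m
  · cases b
    · exact SumIndec.of_skew (s := v) (t := [m]) hv (by simp) h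
    · exact SumIndec.of_skew (s := [m]) (t := v) (by simp) hv h

theorem B.indec {b : Bool} {w : List ℕ} (h : B b w) : SumIndec w := by
  obtain ⟨m, v, rfl, _, hc⟩ := h
  exact SumIndec.ins hc

theorem BL.indec {b : Bool} {w : List ℕ} (h : BL b w) : SumIndec w := h.B.indec

theorem One.sumIndec {w : List ℕ} (h : One w) : SumIndec w := by
  obtain ⟨m, rfl⟩ := h; exact SumIndec.single m

theorem One.skewIndec {w : List ℕ} (h : One w) : SkewIndec w := by
  obtain ⟨m, rfl⟩ := h; exact SkewIndec.single m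

theorem Two.sumIndec {w : List ℕ} (h : Two w) : SumIndec w := by
  obtain ⟨x, y, rfl, hxy⟩ := h
  exact SumIndec.of_skew (s := [y]) (t := [x]) (by simp) (by simp) (lt_single.2 hxy)

/-- the hypothesis used on the family `D` in `Tp D S` and `Sp D` -/
def Good (D : Wd) : Prop := ∀ w, D w → SkewIndec w ∧ 2 ≤ w.length

theorem Good.D (b : Bool) : Good (D b) := by
  rintro w ⟨u, v, rfl, hu, hv, hl⟩
  have hv' := hv.indec.1
  refine ⟨SkewIndec.of_sum hu.2 hv' hl, ?_⟩
  have h1 := List.length_pos_iff.2 hu.2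
  have h2 := List.length_pos_iff.2 hv'
  simp only [List.length_append]; omega

theorem Good.E (b : Bool) : Good (E b) := fun w h => Good.D b w h.D

theorem Good.and {D D' : Wd} (h : Good D) : Good (fun w => D w ∧ D' w) := fun w hw => h w hw.1

theorem one_big_false {D : Wd} (hD : Good D) {m : ℕ} {v u' v' : List ℕ} (h : m :: v = u' ++ v')
    (hl : Lt v [m]) (hu : D u') : False := by
  obtain ⟨h1, h2⟩ := hD _ hu
  rcases u' with _ | ⟨a, u1⟩
  · simp at h2
  · simp only [List.cons_append, List.cons.injEq] at h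
    obtain ⟨rfl, rfl⟩ := h
    have hu1 : u1 ≠ [] := by rintro rfl; simp at h2
    rcases h1.2 [m] u1 rfl (hl.mono (by simp) (fun _ h => h)) with h3 | h3
    · simp at h3
    · exact hu1 h3

theorem Sp_iff {E : Wd} {w : List ℕ} :
    Sp E w ↔ w = [] ∨ (SkewP One (Sp E) w ∨ SkewP E (Sp E) w) := by
  constructor
  · rintro (_ | ⟨h1, h2⟩ | ⟨h1, h2, h3⟩)
    · exact Or.inl rfl
    · exact Or.inr (Or.inl ⟨[_], _, rfl, ⟨_, rfl⟩, h1, h2⟩)
    · exact Or.inr (Or.inr ⟨_, _, rfl, h1, h2, h3⟩)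
  · rintro (rfl | ⟨u, v, rfl, ⟨m, rfl⟩, h2, h3⟩ | ⟨u, v, rfl, h1, h2, h3⟩)
    · exact Sp.nil
    · exact Sp.one h2 h3
    · exact Sp.big h1 h2 h3

theorem Tp_iff {D S : Wd} {w : List ℕ} :
    Tp D S w ↔ w = [] ∨ (SkewP One (Tp D S) w ∨ SkewP D S w) := by
  constructor
  · rintro (_ | ⟨h1, h2⟩ | ⟨h1, h2, h3⟩)
    · exact Or.inl rfl
    · exact Or.inr (Or.inl ⟨[_], _, rfl, ⟨_, rfl⟩, h1, h2⟩)
    · exact Or.inr (Or.inr ⟨_, _, rfl, h1, h2, h3⟩)
  · rintro (rfl | ⟨u, v, rfl, ⟨m, rfl⟩, h2, h3⟩ | ⟨u, v, rfl, h1, h2, h3⟩)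
    · exact Tp.nil
    · exact Tp.one h2 h3
    · exact Tp.big h1 h2 h3

theorem Xp_iff {G : Wd} {w : List ℕ} : Xp G w ↔ w = [] ∨ SumP G (Xp G) w := by
  constructor
  · rintro (_ | ⟨h1, h2, h3⟩)
    · exact Or.inl rfl
    · exact Or.inr ⟨_, _, rfl, h1, h2, h3⟩
  · rintro (rfl | ⟨u, v, rfl, h1, h2, h3⟩)
    · exact Xp.nil
    · exact Xp.cons h1 h2 h3

theorem UnambSum.left {P Q : Wd} (h : ∀ w, P w → SumIndec w) : UnambSum P Q :=
  fun _ _ _ _ he hu _ hl hu' _ hl' => first_sum_unique he (h _ hu) (h _ hu') hl hl'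

theorem UnambSum.right {P Q : Wd} (h : ∀ w, Q w → SumIndec w) : UnambSum P Q :=
  fun _ _ _ _ he _ hv hl _ hv' hl' => last_sum_unique he (h _ hv) (h _ hv') hl hl'

theorem UnambSkew.left {P Q : Wd} (h : ∀ w, P w → SkewIndec w) : UnambSkew P Q :=
  fun _ _ _ _ he hu _ hl hu' _ hl' => first_skew_unique he (h _ hu) (h _ hu') hl hl'

theorem UnambSkew.right {P Q : Wd} (h : ∀ w, Q w → SkewIndec w) : UnambSkew P Q :=
  fun _ _ _ _ he _ hv hl _ hv' hl' => last_skew_unique he (h _ hv) (h _ hv') hl hl'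

/-! ### equations -/

theorem GF_B (b : Bool) : GF (B b) = PowerSeries.X * GF (A b) := by
  cases b
  · have h : ∀ w, B false w ↔ SkewP (A false) One w := by
      intro w
      constructor
      · rintro ⟨m, v, rfl, h1, h2⟩
        exact ⟨v, [m], rfl, h1, ⟨m, rfl⟩, h2⟩
      · rintro ⟨v, _, rfl, h1, ⟨m, rfl⟩, h2⟩
        exact ⟨m, v, rfl, h1, h2⟩
    rw [GF_congr h, GF_skew (Inv.A false) (UnambSkew.right fun w h => h.skewIndec), GF_one, mul_comm]
  · have h : ∀ w, B true w ↔ SkewP One (A true) w := by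
      intro w
      constructor
      · rintro ⟨m, v, rfl, h1, h2⟩
        exact ⟨[m], v, rfl, ⟨m, rfl⟩, h1, h2⟩
      · rintro ⟨_, v, rfl, ⟨m, rfl⟩, h1, h2⟩
        exact ⟨m, v, rfl, h1, h2⟩
    rw [GF_congr h, GF_skew Inv.one (UnambSkew.left fun w h => h.skewIndec), GF_one]

theorem GF_BL (b : Bool) : GF (BL b) = PowerSeries.X * GF (L b) := by
  cases b
  · have h : ∀ w, BL false w ↔ SkewP (L false) One w := by
      intro w
      constructor
      · rintro ⟨m, v, rfl, h1, h2⟩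
        exact ⟨v, [m], rfl, h1, ⟨m, rfl⟩, h2⟩
      · rintro ⟨v, _, rfl, h1, ⟨m, rfl⟩, h2⟩
        exact ⟨m, v, rfl, h1, h2⟩
    rw [GF_congr h, GF_skew (Inv.L false) (UnambSkew.right fun w h => h.skewIndec), GF_one, mul_comm]
  · have h : ∀ w, BL true w ↔ SkewP One (L true) w := by
      intro w
      constructor
      · rintro ⟨m, v, rfl, h1, h2⟩
        exact ⟨[m], v, rfl, ⟨m, rfl⟩, h1, h2⟩
      · rintro ⟨_, v, rfl, ⟨m, rfl⟩, h1, h2⟩
        exact ⟨m, v, rfl, h1, h2⟩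
    rw [GF_congr h, GF_skew Inv.one (UnambSkew.left fun w h => h.skewIndec), GF_one]

theorem GF_A (b : Bool) : GF (A b) = 1 + GF (A b) * GF (B b) := by
  rw [← GF_sum (Inv.B b) (UnambSum.right fun w h => h.indec), ← GF_emp, ← GF_or]
  · exact GF_congr fun w => A_iff
  · rintro w rfl ⟨u, v, h, _, hv, _⟩
    exact hv.indec.1 (List.append_eq_nil_iff.1 h.symm).2

theorem GF_D (b : Bool) : GF (D b) = (GF (A b) - 1) * GF (B b) := by
  rw [D, GF_sum (Inv.B b) (UnambSum.right fun w h => h.indec), GF_ne (P := A b) A.nil]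
  ring

theorem GF_two : GF Two = (PowerSeries.X : PowerSeries ℤ) * PowerSeries.X := by
  have h : ∀ w, Two w ↔ SkewP One One w := by
    intro w
    constructor
    · rintro ⟨m, n, rfl, h⟩
      exact ⟨[n], [m], rfl, ⟨n, rfl⟩, ⟨m, rfl⟩, lt_single.2 h⟩
    · rintro ⟨_, _, rfl, ⟨n, rfl⟩, ⟨m, rfl⟩, h⟩
      exact ⟨m, n, rfl, lt_single.1 h⟩
  rw [GF_congr h, GF_skew Inv.one (UnambSkew.left fun w h => h.skewIndec), GF_one]

theorem one_two_false {P Q : Wd} {w : List ℕ} (h1 : SumP P One w) (h2 : SumP Q Two w) : False := by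
  obtain ⟨u, _, rfl, hu, ⟨m, rfl⟩, hl⟩ := h1
  obtain ⟨u', _, he, hu', ⟨a, c, rfl, hac⟩, hl'⟩ := h2
  have := last_sum_unique he (SumIndec.single m) (Two.sumIndec ⟨a, c, rfl, hac⟩) hl hl'
  subst this
  have := List.append_cancel_left he
  simp at this

theorem GF_sumOneTwo {P : Wd} :
    GF (fun w => SumP P One w ∨ SumP P Two w) =
      GF P * (PowerSeries.X + PowerSeries.X * PowerSeries.X) := by
  rw [GF_or (fun w h1 h2 => one_two_false h1 h2)]
  show GF (SumP P One) + GF (SumP P Two) = _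
  rw [GF_sum Inv.one (UnambSum.right fun w h => h.sumIndec),
    GF_sum Inv.two (UnambSum.right fun w h => h.sumIndec), GF_one, GF_two]
  ring

theorem GF_E (b : Bool) : GF (E b) =
    (GF (L b) - 1) * (PowerSeries.X + PowerSeries.X * PowerSeries.X) := by
  show GF (fun w => SumP (Ne (L b)) One w ∨ SumP (Ne (L b)) Two w) = _
  rw [GF_sumOneTwo, GF_ne (P := L b) L.nil]
  ring

/-- a sum-indecomposable word is not a nontrivial sum -/
theorem indec_sum_false {P Q : Wd} {w : List ℕ} (h : SumIndec w) (hQ : ∀ w, Q w → SumIndec w)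
    (h' : SumP (Ne P) Q w) : False := by
  obtain ⟨u, v, rfl, hu, hv, hl⟩ := h'
  rcases h.2 u v rfl hl with h1 | h1
  · exact hu.2 h1
  · exact (hQ _ hv).1 h1

theorem GF_L (b : Bool) : GF (L b) = 1 + PowerSeries.X * GF (L b) + GF (E b) := by
  rw [← GF_BL, add_assoc, ← GF_or (P := BL b) (Q := E b), ← GF_emp, ← GF_or]
  · exact GF_congr fun w => L_iff
  · rintro w rfl (h | h)
    · exact h.indec.1 rfl
    · exact (Good.E b _ h).1.1 rfl
  · intro w h1 h2
    rcases h2 with h2 | h2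
    · exact indec_sum_false h1.indec (fun w h => h.sumIndec) h2
    · exact indec_sum_false h1.indec (fun w h => h.sumIndec) h2

theorem GF_Sp {E : Wd} (hE : Good E) (hI : Inv E) :
    GF (Sp E) = 1 + PowerSeries.X * GF (Sp E) + GF E * GF (Sp E) := by
  rw [← GF_one, ← GF_skew Inv.one (UnambSkew.left fun w h => h.skewIndec),
    ← GF_skew hI (UnambSkew.left fun w h => (hE w h).1), add_assoc,
    ← GF_or (P := SkewP One (Sp E)) (Q := SkewP E (Sp E)), ← GF_emp, ← GF_or]
  · exact GF_congr fun w => Sp_iff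
  · rintro w rfl (⟨u, v, h, hu, _, _⟩ | ⟨u, v, h, hu, _, _⟩)
    · exact hu.skewIndec.1 (List.append_eq_nil_iff.1 h.symm).1
    · exact (hE _ hu).1.1 (List.append_eq_nil_iff.1 h.symm).1
  · rintro w ⟨_, v, rfl, ⟨m, rfl⟩, _, hl⟩ ⟨u', v', h, hu, _, _⟩
    exact one_big_false hE h hl hu

theorem GF_Tp {D S : Wd} (hD : Good D) (hI : Inv D) :
    GF (Tp D S) = 1 + PowerSeries.X * GF (Tp D S) + GF D * GF S := by
  rw [← GF_one, ← GF_skew Inv.one (UnambSkew.left fun w h => h.skewIndec),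
    ← GF_skew hI (UnambSkew.left fun w h => (hD w h).1), add_assoc,
    ← GF_or (P := SkewP One (Tp D S)) (Q := SkewP D S), ← GF_emp, ← GF_or]
  · exact GF_congr fun w => Tp_iff
  · rintro w rfl (⟨u, v, h, hu, _, _⟩ | ⟨u, v, h, hu, _, _⟩)
    · exact hu.skewIndec.1 (List.append_eq_nil_iff.1 h.symm).1
    · exact (hD _ hu).1.1 (List.append_eq_nil_iff.1 h.symm).1
  · rintro w ⟨_, v, rfl, ⟨m, rfl⟩, _, hl⟩ ⟨u', v', h, hu, _, _⟩
    exact one_big_false hD h hl hu

theorem GF_Gp {D S : Wd} (hD : Good D) (hI : Inv D) (hS : S []) :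
    GF (Gp D S) = PowerSeries.X * GF (Tp D S) + GF D * (GF S - 1) := by
  show GF (fun w => SkewP One (Tp D S) w ∨ SkewP D (Ne S) w) = _
  rw [GF_or]
  · show GF (SkewP One (Tp D S)) + GF (SkewP D (Ne S)) = _
    rw [GF_skew Inv.one (UnambSkew.left fun w h => h.skewIndec),
      GF_skew hI (UnambSkew.left fun w h => (hD w h).1), GF_one, GF_ne hS]
    ring
  · rintro w ⟨_, v, rfl, ⟨m, rfl⟩, _, hl⟩ ⟨u', v', h, hu, _, _⟩
    exact one_big_false hD h hl hu

theorem Gp.indec {D S : Wd} (hD : Good D) {w : List ℕ} (h : Gp D S w) : SumIndec w := by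
  rcases h with ⟨_, v, rfl, ⟨m, rfl⟩, _, hl⟩ | ⟨u, v, rfl, hu, hv, hl⟩
  · by_cases hv : v = []
    · subst hv; exact SumIndec.single m
    · exact SumIndec.of_skew (by simp) hv hl
  · exact SumIndec.of_skew (hD _ hu).1.1 hv.2 hl

theorem G.indec {b : Bool} {w : List ℕ} (h : G b w) : SumIndec w := Gp.indec (Good.D b) h

theorem GF_Xp {G : Wd} (hG : ∀ w, G w → SumIndec w) (hI : Inv G) :
    GF (Xp G) = 1 + GF G * GF (Xp G) := by
  rw [← GF_sum (Inv.Xp hI) (UnambSum.left hG), ← GF_emp, ← GF_or]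
  · exact GF_congr fun w => Xp_iff
  · rintro w rfl ⟨u, v, h, hu, _, _⟩
    exact (hG _ hu).1 (List.append_eq_nil_iff.1 h.symm).1

/-! ### the first class -/

theorem sub_ne_zero_of_const {p : PowerSeries ℤ} (h : PowerSeries.constantCoeff p ≠ 0) : p ≠ 0 := by
  rintro rfl
  simp at h

theorem one_sub_X_ne : (1 - PowerSeries.X : PowerSeries ℤ) ≠ 0 :=
  sub_ne_zero_of_const (by simp)

/-- elimination: the generating function of `X b` -/
theorem GF_X_key (b : Bool) :
    GF (X b) * ((1 - 2 * PowerSeries.X) * (1 - 2 * (PowerSeries.X * GF (A b)))) =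
      1 - 3 * PowerSeries.X :=
  alg_key _ _ _ _ _ _ _ _ _ _ (GF_B b) (GF_A b) (GF_D b) (GF_L b) (GF_E b)
    (GF_Sp (Good.E b) (Inv.E b)) (GF_Tp (S := S b) (Good.D b) (Inv.D b))
    (GF_Gp (S := S b) (Good.D b) (Inv.D b) Sp.nil)
    (GF_Xp (G := G b) (fun w h => G.indec h) (Inv.G b)) one_sub_X_ne

theorem GF_A_eq : GF (A true) = GF (A false) := by
  refine alg_catalan PowerSeries.X _ _ ?_ ?_ ?_
  · conv_lhs => rw [GF_A true, GF_B true]
  · conv_lhs => rw [GF_A false, GF_B false]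
  · exact sub_ne_zero_of_const (by simp)

end Pool.Agent.SepClass
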